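import Pool.Agent.Q144.SU.Gen
import Pool.Agent.Q41.SU.Stm6

/-!
# Project SU: job A4 (constant cross ratios)
-/

set_option autoImplicit false
set_option linter.unusedSectionVars false

namespace Pool.Agent.Q144.SU

open Finset Polynomial Pool.Agent.Q41.SU
open Pool.Agent.W277.UH (ConjConst)

universe u

section

variable {k E : Type u} [Field k] [Field E] [Algebra k E]

/-- the value of a form -/
def hv (H : ℕ) (g : E[X]) (x y : E) : E := ∑ i ∈ range (H + 1), g.coeff i * x ^ i * y ^ (H - i)

theorem hv_smul (H : ℕ) (g : E[X]) (l x y : E) : hv H g (l * x) (l * y) = l ^ H * hv H g x y := by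
  unfold hv
  rw [mul_sum]
  refine sum_congr rfl fun i hi => ?_
  have hi' : i ≤ H := Nat.lt_succ_iff.1 (mem_range.1 hi)
  obtain ⟨j, rfl⟩ : ∃ j, H = j + i := ⟨H - i, by omega⟩
  rw [Nat.add_sub_cancel, mul_pow, mul_pow, pow_add]
  ring

theorem hcm_eval_hv (H : ℕ) (g P Q : E[X]) (x : E) :
    (hcm H g P Q).eval x = hv H g (P.eval x) (Q.eval x) := by
  unfold hcm hv
  rw [eval_finsetSum]
  refine sum_congr rfl fun i _ => ?_
  rw [eval_mul, eval_mul, eval_C, eval_pow, eval_pow]

theorem hv_aeval (H : ℕ) (g P Q : k[X]) (y : E) :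
    hv H (g.map (algebraMap k E)) (aeval y P) (aeval y Q) = aeval y (hcm H g P Q) := by
  unfold hcm hv
  rw [map_sum]
  refine sum_congr rfl fun i _ => ?_
  rw [map_mul, map_mul, aeval_C, map_pow, map_pow, coeff_map]

theorem hc_eq_hcm (d : ℕ) (A P Q : E[X]) : Pool.Agent.W277.UH.hc d A P Q = hcm d A P Q := by
  unfold Pool.Agent.W277.UH.hc Pool.Agent.W277.UH.hev hcm
  refine sum_congr rfl fun i _ => ?_
  rw [coeff_map]

/-- reduction of the conjugation to a coprime pair -/
theorem conj_reduce (d : ℕ) (hd : 1 ≤ d) (p q : E[X]) (hmax : max p.natDegree q.natDegree = d)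
    (hco : IsCoprime p q) (h : ConjConst k p q d) :
    ∃ a b c e : E, a * e - b * c ≠ 0 ∧ ∃ (d' : ℕ) (u w : k[X]), d ≤ d' ∧ IsCoprime u w ∧
      max u.natDegree w.natDegree = d' ∧ w ≠ 0 ∧ ∀ z, q.eval z ≠ 0 →
        (a * (p.eval z / q.eval z) + b) *
          hv d' (w.map (algebraMap k E)) (a * z + b) (c * z + e) =
        (c * (p.eval z / q.eval z) + e) *
          hv d' (u.map (algebraMap k E)) (a * z + b) (c * z + e) := by
  obtain ⟨a, b, c, e, hdet, u₀, w₀, h0, hu, hw, hI⟩ := h
  rw [hc_eq_hcm, hc_eq_hcm] at hI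
  obtain ⟨g, hg0, u, w, huw, rfl, rfl⟩ : ∃ g : k[X], g ≠ 0 ∧ ∃ u w : k[X], IsCoprime u w ∧
      u₀ = g * u ∧ w₀ = g * w := by
    classical
    set g := EuclideanDomain.gcd u₀ w₀ with hg
    have hg0 : g ≠ 0 := by
      intro h
      rw [hg, EuclideanDomain.gcd_eq_zero_iff] at h
      rcases h0 with h1 | h1
      · exact h1 h.1
      · exact h1 h.2
    obtain ⟨u, hu'⟩ := EuclideanDomain.gcd_dvd_left u₀ w₀
    obtain ⟨w, hw'⟩ := EuclideanDomain.gcd_dvd_right u₀ w₀
    refine ⟨g, hg0, u, w, ?_, hu', hw'⟩
    refine ⟨EuclideanDomain.gcdA u₀ w₀, EuclideanDomain.gcdB u₀ w₀, ?_⟩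
    have h2 := EuclideanDomain.gcd_eq_gcd_ab u₀ w₀
    rw [← hg] at h2 hu' hw'
    refine mul_left_cancel₀ hg0 ?_
    rw [mul_one]
    calc g * (EuclideanDomain.gcdA u₀ w₀ * u + EuclideanDomain.gcdB u₀ w₀ * w)
        = (g * u) * EuclideanDomain.gcdA u₀ w₀ + (g * w) * EuclideanDomain.gcdB u₀ w₀ := by ring
      _ = u₀ * EuclideanDomain.gcdA u₀ w₀ + w₀ * EuclideanDomain.gcdB u₀ w₀ := by
        rw [← hu', ← hw']
      _ = g := h2.symm
  set d' := max u.natDegree w.natDegree with hd'
  set L1 : E[X] := C a * X + C b with hL1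
  set L2 : E[X] := C c * X + C e with hL2
  have hL1d : L1.natDegree ≤ 1 := natDegree_linear_le
  have hL2d : L2.natDegree ≤ 1 := natDegree_linear_le
  have hL20 : L2 ≠ 0 := by
    intro h
    have h1 : L2.coeff 1 = 0 := by rw [h, coeff_zero]
    have h2 : L2.coeff 0 = 0 := by rw [h, coeff_zero]
    simp [hL2] at h1 h2
    apply hdet
    rw [h1, h2]
    ring
  have hLco : IsCoprime L1 L2 := by
    refine ⟨C (c / (b * c - a * e)), -C (a / (b * c - a * e)), ?_⟩
    have h1 : b * c - a * e ≠ 0 := by
      intro h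
      apply hdet
      linear_combination -h
    have h2 : C (c / (b * c - a * e)) * L1 + -C (a / (b * c - a * e)) * L2 =
        C ((c / (b * c - a * e)) * b - a / (b * c - a * e) * e) +
        C ((c / (b * c - a * e)) * a - a / (b * c - a * e) * c) * X := by
      rw [hL1, hL2]
      simp only [C_sub, C_mul]
      ring
    rw [h2]
    have h3 : (c / (b * c - a * e)) * b - a / (b * c - a * e) * e = 1 := by
      have : (c / (b * c - a * e)) * b - a / (b * c - a * e) * e =
          (b * c - a * e) / (b * c - a * e) := by ring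
      rw [this, div_self h1]
    have h4 : (c / (b * c - a * e)) * a - a / (b * c - a * e) * c = 0 := by
      ring
    rw [h3, h4, C_0, zero_mul, add_zero, C_1]
  have hLmax : 1 ≤ max L1.natDegree L2.natDegree := by
    by_contra hlt
    rw [not_le, Nat.lt_one_iff] at hlt
    have h1 : L1.natDegree = 0 := Nat.le_zero.1 (hlt ▸ le_max_left _ _)
    have h2 : L2.natDegree = 0 := Nat.le_zero.1 (hlt ▸ le_max_right _ _)
    have h3 : L1.coeff 1 = 0 := coeff_eq_zero_of_natDegree_lt (by omega)
    have h4 : L2.coeff 1 = 0 := coeff_eq_zero_of_natDegree_lt (by omega)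
    simp [hL1, hL2] at h3 h4
    apply hdet
    rw [h3, h4]
    ring
  let alg : E[X] →ₐ[E] RatFunc E := IsScalarTower.toAlgHom E E[X] (RatFunc E)
  have halg : ∀ f, alg f = algebraMap E[X] (RatFunc E) f := fun f => rfl
  have hne : ∀ f : E[X], f ≠ 0 → alg f ≠ 0 := by
    intro f hf
    rw [halg]
    exact RatFunc.algebraMap_ne_zero hf
  have hinj : Function.Injective alg := RatFunc.algebraMap_injective E
  set y := alg L1 / alg L2 with hy
  have hyg : ∀ f : E[X], f ≠ 0 → aeval y f ≠ 0 := by
    intro f hf h0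
    have h1 := Pool.Agent.Q24.SU.hcm_ne (H := f.natDegree) le_rfl hf hLco hL20 hLmax
    have h2 := map_hcm alg (H := f.natDegree) (g := f) (P := L1) le_rfl (hne _ hL20)
    rw [← hy, h0, mul_zero] at h2
    exact hne _ h1 h2
  have hmn : ∀ f : k[X], f ≠ 0 → f.map (algebraMap k E) ≠ 0 := by
    intro f hf
    exact (Polynomial.map_ne_zero_iff (algebraMap k E).injective).2 hf
  set A0 : E[X] := C a * p + C b * q with hA0
  set B0 : E[X] := C c * p + C e * q with hB0
  have hIy : alg A0 * aeval y (w.map (algebraMap k E)) =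
      alg B0 * aeval y (u.map (algebraMap k E)) := by
    have h1 := congrArg alg hI
    rw [map_mul, map_mul, map_hcm alg ((natDegree_map_le).trans hw) (hne _ hL20),
      map_hcm alg ((natDegree_map_le).trans hu) (hne _ hL20), ← hy, Polynomial.map_mul,
      Polynomial.map_mul, map_mul, map_mul] at h1
    have h2 : (alg L2 ^ d * aeval y (g.map (algebraMap k E))) ≠ 0 :=
      mul_ne_zero (pow_ne_zero _ (hne _ hL20)) (hyg _ (hmn g hg0))
    refine mul_left_cancel₀ h2 ?_
    linear_combination h1
  have hII : A0 * hcm d' (w.map (algebraMap k E)) L1 L2 =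
      B0 * hcm d' (u.map (algebraMap k E)) L1 L2 := by
    apply hinj
    rw [map_mul, map_mul, map_hcm alg ((natDegree_map_le).trans (hd' ▸ le_max_right _ _))
      (hne _ hL20), map_hcm alg ((natDegree_map_le).trans (hd' ▸ le_max_left _ _)) (hne _ hL20), ← hy]
    linear_combination (alg L2 ^ d') * hIy
  have hp' : C (a * e - b * c) * p = C e * A0 - C b * B0 := by
    rw [hA0, hB0]
    simp only [C_sub, C_mul]
    ring
  have hq' : C (a * e - b * c) * q = C a * B0 - C c * A0 := by
    rw [hA0, hB0]
    simp only [C_sub, C_mul]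
    ring
  have hAB : IsCoprime A0 B0 := by
    obtain ⟨r, s, hrs⟩ := hco
    refine ⟨C (a * e - b * c)⁻¹ * (r * C e - s * C c), C (a * e - b * c)⁻¹ * (s * C a - r * C b), ?_⟩
    have h1 : C (a * e - b * c)⁻¹ * C (a * e - b * c) = 1 := by
      rw [← C_mul, inv_mul_cancel₀ hdet, C_1]
    calc _ = C (a * e - b * c)⁻¹ * (r * (C e * A0 - C b * B0) + s * (C a * B0 - C c * A0)) := by
          ring
      _ = (C (a * e - b * c)⁻¹ * C (a * e - b * c)) * (r * p + s * q) := by
          rw [← hp', ← hq']
          ring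
      _ = 1 := by rw [h1, hrs, one_mul]
  have hABd : d ≤ max A0.natDegree B0.natDegree := by
    rw [← hmax]
    refine max_le ?_ ?_
    · rw [← natDegree_C_mul hdet, hp']
      exact (natDegree_sub_le _ _).trans (max_le_max (natDegree_C_mul_le _ _)
        (natDegree_C_mul_le _ _))
    · rw [← natDegree_C_mul hdet, hq', max_comm]
      exact (natDegree_sub_le _ _).trans (max_le_max (natDegree_C_mul_le _ _)
        (natDegree_C_mul_le _ _))
  have hhcm : ∀ f : k[X], f ≠ 0 → f.natDegree ≤ d' →
      hcm d' (f.map (algebraMap k E)) L1 L2 ≠ 0 := fun f hf hfd =>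
    Pool.Agent.Q24.SU.hcm_ne ((natDegree_map_le).trans hfd) (hmn f hf) hLco hL20 hLmax
  have hun : ∀ F G : E[X], F = 0 → IsCoprime F G → G.natDegree = 0 := by
    intro F G hF hFG
    rw [hF, isCoprime_zero_left] at hFG
    exact natDegree_eq_zero_of_isUnit hFG
  have hu0 : u ≠ 0 := by
    rintro rfl
    have hw0 : w ≠ 0 := by
      rintro rfl
      exact not_isUnit_zero (isCoprime_zero_left.1 huw)
    have h1 : A0 * hcm d' (w.map (algebraMap k E)) L1 L2 = 0 := by
      rw [hII]
      simp [hcm]
    have h2 : A0 = 0 := (mul_eq_zero.1 h1).resolve_right (hhcm w hw0 (le_max_right _ _))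
    have h3 := hun _ _ h2 hAB
    rw [h2, h3, natDegree_zero] at hABd
    simp at hABd
    omega
  have hw0 : w ≠ 0 := by
    rintro rfl
    have h1 : B0 * hcm d' (u.map (algebraMap k E)) L1 L2 = 0 := by
      rw [← hII]
      simp [hcm]
    have h2 : B0 = 0 := (mul_eq_zero.1 h1).resolve_right (hhcm u hu0 (le_max_left _ _))
    have h3 := hun _ _ h2 hAB.symm
    rw [h2, h3, natDegree_zero] at hABd
    simp at hABd
    omega
  have hdd : d ≤ d' := by
    refine hABd.trans (max_le ?_ ?_)
    · have h1 : A0 ∣ hcm d' (u.map (algebraMap k E)) L1 L2 :=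
        hAB.dvd_of_dvd_mul_left ⟨_, hII.symm⟩
      have h2 := natDegree_le_of_dvd h1 (hhcm u hu0 (le_max_left _ _))
      have h3 := Pool.Agent.Q24.SU.hcm_deg (H := d') (g := u.map (algebraMap k E)) hL1d hL2d
      omega
    · have h1 : B0 ∣ hcm d' (w.map (algebraMap k E)) L1 L2 :=
        hAB.symm.dvd_of_dvd_mul_left ⟨_, hII⟩
      have h2 := natDegree_le_of_dvd h1 (hhcm w hw0 (le_max_right _ _))
      have h3 := Pool.Agent.Q24.SU.hcm_deg (H := d') (g := w.map (algebraMap k E)) hL1d hL2d
      omega
  refine ⟨a, b, c, e, hdet, d', u, w, hdd, huw, rfl, hw0, fun z hz => ?_⟩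
  have h1 := congrArg (fun f : E[X] => f.eval z) hII
  simp only [eval_mul, hcm_eval_hv, hA0, hB0, hL1, hL2, eval_add, eval_C, eval_X] at h1
  have h2 : a * p.eval z + b * q.eval z = q.eval z * (a * (p.eval z / q.eval z) + b) := by
    field_simp
  have h3 : c * p.eval z + e * q.eval z = q.eval z * (c * (p.eval z / q.eval z) + e) := by
    field_simp
  rw [h2, h3, mul_assoc, mul_assoc] at h1
  exact mul_left_cancel₀ hz h1

/-- the orbit of a preperiodic point consists of constant points -/
theorem const_point [IsAlgClosed k] (d : ℕ) (hd : 2 ≤ d) (u w : k[X]) (huw : IsCoprime u w)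
    (hmax : max u.natDegree w.natDegree = d) (hw : w ≠ 0) (A B : ℕ → E)
    (h0 : ∀ n, A n ≠ 0 ∨ B n ≠ 0)
    (hrec : ∀ n, A (n + 1) * hv d (w.map (algebraMap k E)) (A n) (B n) =
      B (n + 1) * hv d (u.map (algebraMap k E)) (A n) (B n))
    (hper : ∃ i j, i < j ∧ A i = A j ∧ B i = B j) (hB : B 0 ≠ 0) :
    ∃ s : k, A 0 = algebraMap k E s * B 0 := by
  set y := A 0 / B 0 with hy
  by_cases htr : IsAlgebraic k y
  · have h1 := minpoly.irreducible htr.isIntegral
    have h2 := IsAlgClosed.degree_eq_one_of_irreducible k h1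
    obtain ⟨s, hs⟩ := minpoly.mem_range_of_degree_eq_one k y h2
    refine ⟨s, ?_⟩
    rw [hs, hy, div_mul_cancel₀ _ hB]
  · exfalso
    have hinj : Function.Injective (aeval y : k[X] →ₐ[k] E) := transcendental_iff_injective.1 htr
    have hne : ∀ f : k[X], f ≠ 0 → aeval y f ≠ 0 := by
      intro f hf h
      exact hf (hinj (by rw [h, map_zero]))
    have hit := itr_props (by omega : 1 ≤ d) huw hmax hw
    have key : ∀ n, A n * aeval y (itr d u w n).2 = B n * aeval y (itr d u w n).1 ∧ B n ≠ 0 := by
      intro n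
      induction n with
      | zero =>
        refine ⟨?_, hB⟩
        show A 0 * aeval y (1 : k[X]) = B 0 * aeval y (X : k[X])
        rw [map_one, aeval_X, mul_one, hy, mul_div_cancel₀ _ hB]
      | succ n ih =>
        obtain ⟨ih1, ih2⟩ := ih
        have hv0 := hne _ (hit n).2.1
        set l := B n / aeval y (itr d u w n).2 with hl
        have hl0 : l ≠ 0 := div_ne_zero ih2 hv0
        have e2 : B n = l * aeval y (itr d u w n).2 := by
          rw [hl, div_mul_cancel₀ _ hv0]
        have e1 : A n = l * aeval y (itr d u w n).1 := by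
          have : A n * aeval y (itr d u w n).2 = l * aeval y (itr d u w n).1 *
              aeval y (itr d u w n).2 := by
            rw [ih1, hl]
            field_simp
          exact mul_right_cancel₀ hv0 this
        have h1 := hrec n
        rw [e1, e2, hv_smul, hv_smul, hv_aeval, hv_aeval] at h1
        have h2 : A (n + 1) * aeval y (itr d u w (n + 1)).2 =
            B (n + 1) * aeval y (itr d u w (n + 1)).1 := by
          show A (n + 1) * aeval y (hcm d w (itr d u w n).1 (itr d u w n).2) =
            B (n + 1) * aeval y (hcm d u (itr d u w n).1 (itr d u w n).2)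
          refine mul_left_cancel₀ (pow_ne_zero d hl0) ?_
          linear_combination h1
        refine ⟨h2, fun h3 => ?_⟩
        rw [h3, zero_mul] at h2
        have h4 := (mul_eq_zero.1 h2).resolve_right (hne _ (hit (n + 1)).2.1)
        rcases h0 (n + 1) with h5 | h5
        · exact h5 h4
        · exact h5 h3
    obtain ⟨i, j, hij, hA, hBB⟩ := hper
    have h1 := (key i).1
    have h2 := (key j).1
    rw [← hA, ← hBB] at h2
    have h3 : aeval y ((itr d u w i).1 * (itr d u w j).2) =
        aeval y ((itr d u w j).1 * (itr d u w i).2) := by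
      rw [map_mul, map_mul]
      refine mul_left_cancel₀ (key i).2 ?_
      linear_combination (aeval y (itr d u w i).2) * h2 - (aeval y (itr d u w j).2) * h1
    have h4 := hinj h3
    have d1 : (itr d u w i).1 ∣ (itr d u w j).1 :=
      (hit i).1.dvd_of_dvd_mul_right ⟨_, h4.symm⟩
    have d2 : (itr d u w j).1 ∣ (itr d u w i).1 :=
      (hit j).1.dvd_of_dvd_mul_right ⟨_, h4⟩
    have d3 : (itr d u w i).2 ∣ (itr d u w j).2 :=
      (hit i).1.symm.dvd_of_dvd_mul_left ⟨(itr d u w j).1, by rw [h4]; ring⟩
    have d4 : (itr d u w j).2 ∣ (itr d u w i).2 :=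
      (hit j).1.symm.dvd_of_dvd_mul_left ⟨(itr d u w i).1, by rw [← h4]; ring⟩
    have n1 : (itr d u w i).1.natDegree = (itr d u w j).1.natDegree := by
      have := associated_of_dvd_dvd d1 d2
      exact natDegree_eq_of_degree_eq (degree_eq_degree_of_associated this)
    have n2 : (itr d u w i).2.natDegree = (itr d u w j).2.natDegree := by
      have := associated_of_dvd_dvd d3 d4
      exact natDegree_eq_of_degree_eq (degree_eq_degree_of_associated this)
    have h5 : d ^ i = d ^ j := by
      rw [← (hit i).2.2, ← (hit j).2.2, n1, n2]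
    have := Nat.pow_right_injective hd h5
    omega

end

theorem crc : S_crc.{u} := by
  intro k E _ _ _ _ d p q hd _ _ hmax hco hcc P hP x0 hx0 x1 hx1 x2 hx2 x hx h01 h02 h12 hx2' hx0'
  obtain ⟨a, b, c, e, hdet, d', u, w, hdd, huw, hmax', hw, hrel⟩ :=
    conj_reduce d (by omega) p q hmax hco hcc
  have hpt : ∀ z ∈ P, ∃ (s r : k) (l : E), l ≠ 0 ∧ a * z + b = l * algebraMap k E s ∧
      c * z + e = l * algebraMap k E r := by
    intro z hz
    by_cases hB : c * z + e = 0
    · have hA : a * z + b ≠ 0 := by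
        intro h
        apply hdet
        by_cases hc : c = 0
        · have he : e = 0 := by
            rw [hc, zero_mul, zero_add] at hB
            exact hB
          rw [hc, he]
          ring
        · have h1 : c * (a * z + b) - a * (c * z + e) = b * c - a * e := by ring
          rw [h, hB] at h1
          linear_combination h1
      exact ⟨1, 0, a * z + b, hA, by rw [map_one, mul_one], by rw [hB, map_zero, mul_zero]⟩
    · set f : E → E := fun y => p.eval y / q.eval y with hf
      have hmem : ∀ n, f^[n] z ∈ P := by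
        intro n
        induction n with
        | zero => exact hz
        | succ n ih =>
          rw [Function.iterate_succ_apply']
          exact (hP _ ih).2
      have h0 : ∀ n, a * f^[n] z + b ≠ 0 ∨ c * f^[n] z + e ≠ 0 := by
        intro n
        by_contra hcon
        push Not at hcon
        apply hdet
        obtain ⟨h1, h2⟩ := hcon
        have h3 : c * (a * f^[n] z + b) - a * (c * f^[n] z + e) = b * c - a * e := by ring
        rw [h1, h2] at h3
        linear_combination h3
      have hrec : ∀ n, (a * f^[n + 1] z + b) * hv d' (w.map (algebraMap k E)) (a * f^[n] z + b)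
          (c * f^[n] z + e) = (c * f^[n + 1] z + e) * hv d' (u.map (algebraMap k E))
            (a * f^[n] z + b) (c * f^[n] z + e) := by
        intro n
        have := hrel (f^[n] z) (hP _ (hmem n)).1
        rw [Function.iterate_succ_apply']
        exact this
      obtain ⟨i, j, hij, hzz⟩ : ∃ i j, i < j ∧ f^[i] z = f^[j] z := by
        by_contra hcon
        push Not at hcon
        have hinj : Function.Injective fun n : ℕ => (⟨f^[n] z, hmem n⟩ : {x // x ∈ P}) := by
          intro i j hij
          have hij' : f^[i] z = f^[j] z := congrArg Subtype.val hij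
          rcases lt_trichotomy i j with h | h | h
          · exact absurd hij' (hcon i j h)
          · exact h
          · exact absurd hij'.symm (hcon j i h)
        exact not_injective_infinite_finite _ hinj
      obtain ⟨s, hs⟩ := const_point d' (hd.trans hdd) u w huw hmax' hw
        (fun n => a * f^[n] z + b) (fun n => c * f^[n] z + e) h0 hrec
        ⟨i, j, hij, by simp only [hzz], by simp only [hzz]⟩ hB
      refine ⟨s, 1, c * z + e, hB, ?_, by rw [map_one, mul_one]⟩
      have hs' : a * z + b = algebraMap k E s * (c * z + e) := hs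
      rw [hs', mul_comm]
  choose! s r l hl hA hB using hpt
  have hD : ∀ z ∈ P, ∀ z' ∈ P, (a * e - b * c) * (z - z') =
      l z * l z' * algebraMap k E (s z * r z' - s z' * r z) := by
    intro z hz z' hz'
    have h1 : (a * e - b * c) * (z - z') = (a * z + b) * (c * z' + e) -
        (a * z' + b) * (c * z + e) := by ring
    rw [h1, hA z hz, hA z' hz', hB z hz, hB z' hz', map_sub, map_mul, map_mul]
    ring
  refine ⟨((s x * r x0 - s x0 * r x) * (s x1 * r x2 - s x2 * r x1)) /
    ((s x * r x2 - s x2 * r x) * (s x1 * r x0 - s x0 * r x1)), ?_⟩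
  rw [map_div₀, map_mul, map_mul]
  have g1 := hD x hx x0 hx0
  have g2 := hD x1 hx1 x2 hx2
  have g3 := hD x hx x2 hx2
  have g4 := hD x1 hx1 x0 hx0
  have hl0 := hl x0 hx0
  have hl1 := hl x1 hx1
  have hl2 := hl x2 hx2
  have hlx := hl x hx
  have n3 : algebraMap k E (s x * r x2 - s x2 * r x) ≠ 0 := by
    intro h
    rw [h, mul_zero] at g3
    exact mul_ne_zero hdet (sub_ne_zero.2 hx2') g3
  have n4 : algebraMap k E (s x1 * r x0 - s x0 * r x1) ≠ 0 := by
    intro h
    rw [h, mul_zero] at g4
    exact mul_ne_zero hdet (sub_ne_zero.2 h01.symm) g4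
  rw [div_eq_div_iff (mul_ne_zero n3 n4) (mul_ne_zero (sub_ne_zero.2 hx2')
    (sub_ne_zero.2 h01.symm))]
  have hll : l x * l x0 * l x1 * l x2 * ((a * e - b * c) ^ 2) ≠ 0 :=
    mul_ne_zero (mul_ne_zero (mul_ne_zero (mul_ne_zero hlx hl0) hl1) hl2) (pow_ne_zero _ hdet)
  refine mul_left_cancel₀ hll ?_
  set δ := a * e - b * c with hδ
  calc l x * l x0 * l x1 * l x2 * δ ^ 2 * (algebraMap k E (s x * r x0 - s x0 * r x) *
        algebraMap k E (s x1 * r x2 - s x2 * r x1) * ((x - x2) * (x1 - x0)))
      = (l x * l x0 * algebraMap k E (s x * r x0 - s x0 * r x)) *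
        (l x1 * l x2 * algebraMap k E (s x1 * r x2 - s x2 * r x1)) *
        ((δ * (x - x2)) * (δ * (x1 - x0))) := by ring
    _ = (δ * (x - x0)) * (δ * (x1 - x2)) *
        ((l x * l x2 * algebraMap k E (s x * r x2 - s x2 * r x)) *
          (l x1 * l x0 * algebraMap k E (s x1 * r x0 - s x0 * r x1))) := by
        rw [g1, g2, g3, g4]
    _ = _ := by ring

end Pool.Agent.Q144.SU
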