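import Pool.Agent.Q41.SU.Stm2

/-!
# Project SU: job C1 (expansion at one level)
-/

set_option autoImplicit false

namespace Pool.Agent.Q144.SU

open Finset Polynomial Pool.Agent.Q41.SU

universe u

theorem phi_le (w₁ w₂ a b n : ℕ) (T : Finset (II a b)) (hT : T.card = n) :
    phi w₁ w₂ a b n ≤ ∑ x ∈ T, (w₁ * (x.1 : ℕ) + w₂ * (x.2 : ℕ)) :=
  Nat.sInf_le ⟨T, hT, rfl⟩

theorem pow_expand {A : Type u} [CommRing A] (a : ℕ) (p q : A) (c : Fin (a + 1)) :
    (p + q) ^ (c : ℕ) = ∑ s : Fin (a + 1),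
      q ^ (s : ℕ) * (((c : ℕ).choose s : A) * p ^ ((c : ℕ) - s)) := by
  rw [Fin.sum_univ_eq_sum_range
    (fun m => q ^ m * (((c : ℕ).choose m : A) * p ^ ((c : ℕ) - m))), add_comm p q, add_pow]
  have h1 : ∀ s ∈ range ((c : ℕ) + 1), q ^ s * p ^ ((c : ℕ) - s) * ((c : ℕ).choose s : A) =
      q ^ s * (((c : ℕ).choose s : A) * p ^ ((c : ℕ) - s)) := by
    intro s _
    ring
  rw [Finset.sum_congr rfl h1]
  refine Finset.sum_subset ?_ ?_
  · intro s hs
    have := c.2
    simp only [Finset.mem_range] at hs ⊢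
    omega
  · intro s _ hs
    simp only [Finset.mem_range, not_lt] at hs
    rw [Nat.choose_eq_zero_of_lt (by omega)]
    simp

theorem num_le {a b : ℕ} {C : Type} [DecidableEq C] (cl : II a b → C) (r : II a b → II a b)
    (hr : ∀ l l', cl l = cl l' → r l = r l' → l = l') (w₁ w₂ : ℕ) :
    ∑ l, (phi w₁ w₂ a b (univ.filter fun l' => cl l' = cl l).card : ℝ) /
          ((univ.filter fun l' => cl l' = cl l).card : ℝ) ≤
      (w₁ * (∑ l, ((r l).1 : ℕ)) + w₂ * (∑ l, ((r l).2 : ℕ)) : ℕ) := by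
  have h1 : ∀ l, (phi w₁ w₂ a b (univ.filter fun l' => cl l' = cl l).card : ℝ) ≤
      ∑ l' ∈ univ.filter (fun l' => cl l' = cl l),
        ((w₁ * ((r l').1 : ℕ) + w₂ * ((r l').2 : ℕ) : ℕ) : ℝ) := by
    intro l
    have hinj : Set.InjOn r (univ.filter fun l' => cl l' = cl l : Finset (II a b)) := by
      intro x hx y hy hxy
      simp only [coe_filter, mem_univ, true_and, Set.mem_ofPred_eq] at hx hy
      exact hr x y (hx.trans hy.symm) hxy
    have h2 := phi_le w₁ w₂ a b _ ((univ.filter fun l' => cl l' = cl l).image r)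
      (Finset.card_image_of_injOn hinj)
    rw [Finset.sum_image hinj] at h2
    rw [← Nat.cast_sum]
    exact_mod_cast h2
  have h3 : ∀ l, (0 : ℝ) < ((univ.filter fun l' => cl l' = cl l).card : ℝ) := by
    intro l
    have : l ∈ (univ.filter fun l' => cl l' = cl l) := by simp
    exact_mod_cast Finset.card_pos.2 ⟨l, this⟩
  calc ∑ l, (phi w₁ w₂ a b (univ.filter fun l' => cl l' = cl l).card : ℝ) /
          ((univ.filter fun l' => cl l' = cl l).card : ℝ)
      ≤ ∑ l, (∑ l' ∈ univ.filter (fun l' => cl l' = cl l),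
        ((w₁ * ((r l').1 : ℕ) + w₂ * ((r l').2 : ℕ) : ℕ) : ℝ)) /
          ((univ.filter fun l' => cl l' = cl l).card : ℝ) :=
        Finset.sum_le_sum fun l _ => div_le_div_of_nonneg_right (h1 l) (h3 l).le
    _ = ∑ l, ∑ l', if cl l' = cl l then
        ((w₁ * ((r l').1 : ℕ) + w₂ * ((r l').2 : ℕ) : ℕ) : ℝ) /
          ((univ.filter fun x => cl x = cl l').card : ℝ) else 0 := by
        refine Finset.sum_congr rfl fun l _ => ?_
        rw [Finset.sum_div, Finset.sum_filter]
        refine Finset.sum_congr rfl fun l' _ => ?_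
        split_ifs with h
        · rw [h]
        · rfl
    _ = ∑ l', ∑ l, if cl l' = cl l then
        ((w₁ * ((r l').1 : ℕ) + w₂ * ((r l').2 : ℕ) : ℕ) : ℝ) /
          ((univ.filter fun x => cl x = cl l').card : ℝ) else 0 := Finset.sum_comm
    _ = ∑ l', ((w₁ * ((r l').1 : ℕ) + w₂ * ((r l').2 : ℕ) : ℕ) : ℝ) := by
        refine Finset.sum_congr rfl fun l' _ => ?_
        rw [← Finset.sum_filter, Finset.sum_const, nsmul_eq_mul]
        have h4 : (univ.filter fun l => cl l' = cl l) = univ.filter fun x => cl x = cl l' := by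
          ext x
          simp only [mem_filter, mem_univ, true_and]
          exact ⟨fun h => h.symm, fun h => h.symm⟩
        rw [h4]
        have := h3 l'
        field_simp
    _ = (w₁ * (∑ l, ((r l).1 : ℕ)) + w₂ * (∑ l, ((r l).2 : ℕ)) : ℕ) := by
        rw [← Nat.cast_sum, Finset.sum_add_distrib, ← Finset.mul_sum, ← Finset.mul_sum]
    _ ≤ _ := le_refl _

theorem exp : S_exp.{u} := by
  intro A _ a b C _ cl α α' β β' ε ε'
  set R : C → II a b → (II a b → A) := fun q x c =>
    (((c.1 : ℕ).choose x.1 : A) * α q ^ ((c.1 : ℕ) - x.1)) *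
      (((c.2 : ℕ).choose x.2 : A) * α' q ^ ((c.2 : ℕ) - x.2)) with hR
  set κ : II a b → II a b → A := fun l x =>
    (ε * β l) ^ (x.1 : ℕ) * (ε' * β' l) ^ (x.2 : ℕ) with hκ
  have hrow : (Matrix.of fun l c : II a b => (α (cl l) + ε * β l) ^ (c.1 : ℕ) *
      (α' (cl l) + ε' * β' l) ^ (c.2 : ℕ)) = fun l => ∑ x : II a b, κ l x • R (cl l) x := by
    funext l c
    rw [Matrix.of_apply, pow_expand, pow_expand, Finset.sum_mul_sum, Finset.sum_apply,
      Fintype.sum_prod_type]
    refine Finset.sum_congr rfl fun s _ => Finset.sum_congr rfl fun r _ => ?_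
    simp only [hR, hκ, Pi.smul_apply, smul_eq_mul]
    ring
  have hdet : bd a b (fun l => α (cl l) + ε * β l) (fun l => α' (cl l) + ε' * β' l) =
      ∑ r : II a b → II a b, (∏ l, κ l (r l)) *
        Matrix.detRowAlternating (fun l => R (cl l) (r l)) := by
    rw [bd, hrow]
    have h1 := (Matrix.detRowAlternating (R := A) (n := II a b)).toMultilinearMap.map_sum
      (fun l (x : II a b) => κ l x • R (cl l) x)
    refine h1.trans ?_
    refine Finset.sum_congr rfl fun r _ => ?_
    exact (Matrix.detRowAlternating (R := A) (n := II a b)).toMultilinearMap.map_smul_univ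
      (fun l => κ l (r l)) (fun l => R (cl l) (r l))
  rw [hdet]
  refine Ideal.sum_mem _ fun r _ => ?_
  by_cases hr : ∀ l l', cl l = cl l' → r l = r l' → l = l'
  · refine Ideal.mul_mem_right _ _ ?_
    have h2 : ∏ l, κ l (r l) = (∏ l, (β l ^ ((r l).1 : ℕ) * β' l ^ ((r l).2 : ℕ))) *
        (ε ^ (∑ l, ((r l).1 : ℕ)) * ε' ^ (∑ l, ((r l).2 : ℕ))) := by
      rw [← Finset.prod_pow_eq_pow_sum, ← Finset.prod_pow_eq_pow_sum, ← Finset.prod_mul_distrib,
        ← Finset.prod_mul_distrib]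
      refine Finset.prod_congr rfl fun l _ => ?_
      simp only [hκ]
      ring
    rw [h2]
    refine Ideal.mul_mem_left _ _ (Ideal.subset_span ⟨_, _, rfl, fun w₁ w₂ => ?_⟩)
    exact num_le cl r hr w₁ w₂
  · push Not at hr
    obtain ⟨l, l', h1, h2, h3⟩ := hr
    have h4 : Matrix.detRowAlternating (fun l => R (cl l) (r l)) = 0 :=
      (Matrix.detRowAlternating (R := A) (n := II a b)).map_eq_zero_of_eq _ (i := l) (j := l')
        (by simp only [h1, h2]) h3
    rw [h4, mul_zero]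
    exact Ideal.zero_mem _

end Pool.Agent.Q144.SU
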