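import Pool.Agent.Q41.SU.Stm2

/-!
# Project SU: jobs C2, C3 (the cluster lemmas)
-/

set_option autoImplicit false

namespace Pool.Agent.Q144.SU

open Finset Polynomial Pool.Agent.Q41.SU

universe u

/-- classes of rows with the same first `i` digits -/
theorem classes {ι : Type} [Fintype ι] [DecidableEq ι] {A : Type u} (c : ℕ → ι → A) (i : ℕ) :
    ∃ (C : Type) (_ : DecidableEq C) (cl : ι → C) (out : C → ι),
      (∀ l, ∀ j < i, c j (out (cl l)) = c j l) ∧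
      (∀ l, (univ.filter fun l' => cl l' = cl l).card = dcl c i l) := by
  classical
  let S : Setoid ι := ⟨fun l m => ∀ j < i, c j l = c j m, fun _ _ _ => rfl,
    fun h j hj => (h j hj).symm, fun h h' j hj => (h j hj).trans (h' j hj)⟩
  refine ⟨Quotient S, Classical.decEq _, fun l => Quotient.mk S l, Quotient.out, ?_, ?_⟩
  · intro l j hj
    have h := Quotient.exact (Quotient.out_eq (Quotient.mk S l))
    exact h j hj
  · intro l
    rw [dcl, ← Set.ncard_coe_finset]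
    congr 1
    ext m
    simp only [coe_filter, mem_univ, true_and, Set.mem_ofPred_eq]
    constructor
    · intro h
      exact Quotient.exact h
    · intro h
      exact Quotient.sound h

/-- the product of the first `i` of the variables -/
noncomputable def pr {σ : Type} (O : Type u) [CommRing O] {M : ℕ} (e : Fin M → σ) (i : ℕ) :
    MvPolynomial σ O :=
  ∏ j ∈ univ.filter (fun j : Fin M => (j : ℕ) < i), MvPolynomial.X (e j)

theorem pr_split {σ : Type} (O : Type u) [CommRing O] {M : ℕ} (e : Fin M → σ) (i : ℕ)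
    (j₀ : Fin M) (h : (j₀ : ℕ) < i) :
    pr O e i = MvPolynomial.X (e j₀) *
      ∏ j ∈ (univ.filter (fun j : Fin M => (j : ℕ) < i)).erase j₀, MvPolynomial.X (e j) := by
  rw [pr, Finset.mul_prod_erase _ (fun j => (MvPolynomial.X (e j) : MvPolynomial σ O))]
  simp [h]

/-- the row entry as a polynomial -/
noncomputable def rw' {σ : Type} {O : Type u} [CommRing O] {M : ℕ} (e : Fin M → σ) {ι : Type}
    (c : ℕ → ι → O) (η : ι → O) (l : ι) : MvPolynomial σ O :=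
  ∑ i ∈ range M, MvPolynomial.C (c i l) * pr O e i + pr O e M * MvPolynomial.C (η l)

theorem eval_pr {σ : Type} {Λ : Type u} [CommRing Λ] (O : Subring Λ) {M : ℕ} (e : Fin M → σ)
    (f : σ → Λ) (ϖ : Λ) (hf : ∀ j, f (e j) = ϖ) (i : ℕ) (hi : i ≤ M) :
    MvPolynomial.eval₂ O.subtype f (pr O e i) = ϖ ^ i := by
  rw [pr, MvPolynomial.eval₂_prod]
  simp only [MvPolynomial.eval₂_X, hf, Finset.prod_const]
  congr 1
  have h1 : (univ.filter fun j : Fin M => (j : ℕ) < i).map Fin.valEmbedding = range i := by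
    ext x
    simp only [Finset.mem_map, mem_filter, mem_univ, true_and, Fin.valEmbedding_apply,
      Finset.mem_range]
    constructor
    · rintro ⟨j, hj, rfl⟩
      exact hj
    · intro hx
      exact ⟨⟨x, by omega⟩, hx, rfl⟩
  rw [← Finset.card_map Fin.valEmbedding, h1, Finset.card_range]

theorem eval_rw {σ : Type} {Λ : Type u} [CommRing Λ] (O : Subring Λ) {M : ℕ} (e : Fin M → σ)
    (f : σ → Λ) (ϖ : Λ) (hf : ∀ j, f (e j) = ϖ) {ι : Type} (c : ℕ → ι → O) (η : ι → O) (l : ι) :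
    MvPolynomial.eval₂ O.subtype f (rw' e c η l) =
      ∑ i ∈ range M, (c i l : Λ) * ϖ ^ i + ϖ ^ M * (η l : Λ) := by
  rw [rw', MvPolynomial.eval₂_add, MvPolynomial.eval₂_sum, MvPolynomial.eval₂_mul,
    eval_pr O e f ϖ hf M le_rfl, MvPolynomial.eval₂_C]
  congr 1
  refine Finset.sum_congr rfl fun i hi => ?_
  rw [MvPolynomial.eval₂_mul, MvPolynomial.eval₂_C, eval_pr O e f ϖ hf i (Finset.mem_range.1 hi).le]
  rfl

/-- splitting at the level `j₀` -/
theorem rw_split {σ : Type} {O : Type u} [CommRing O] {M : ℕ} (e : Fin M → σ) {ι : Type}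
    (c : ℕ → ι → O) (η : ι → O) (j₀ : Fin M) :
    ∃ β : ι → MvPolynomial σ O, ∀ l, rw' e c η l =
      ∑ i ∈ range ((j₀ : ℕ) + 1), MvPolynomial.C (c i l) * pr O e i + MvPolynomial.X (e j₀) * β l := by
  set P' : ℕ → MvPolynomial σ O := fun i =>
    ∏ j ∈ (univ.filter (fun j : Fin M => (j : ℕ) < i)).erase j₀, MvPolynomial.X (e j) with hP'
  refine ⟨fun l => ∑ i ∈ Ico ((j₀ : ℕ) + 1) M, MvPolynomial.C (c i l) * P' i +
    P' M * MvPolynomial.C (η l), fun l => ?_⟩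
  have h1 : ∑ i ∈ range M, MvPolynomial.C (c i l) * pr O e i =
      ∑ i ∈ range ((j₀ : ℕ) + 1), MvPolynomial.C (c i l) * pr O e i +
        ∑ i ∈ Ico ((j₀ : ℕ) + 1) M, MvPolynomial.C (c i l) * pr O e i := by
    rw [Finset.sum_range_add_sum_Ico _ (Nat.succ_le_of_lt j₀.2)]
  have h2 : ∑ i ∈ Ico ((j₀ : ℕ) + 1) M, MvPolynomial.C (c i l) * pr O e i =
      MvPolynomial.X (e j₀) * ∑ i ∈ Ico ((j₀ : ℕ) + 1) M, MvPolynomial.C (c i l) * P' i := by
    rw [Finset.mul_sum]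
    refine Finset.sum_congr rfl fun i hi => ?_
    rw [pr_split O e i j₀ (by simp only [Finset.mem_Ico] at hi; omega)]
    ring
  rw [rw', h1, h2, pr_split O e M j₀ j₀.2]
  ring

/-- norms of values of polynomials with integral coefficients -/
theorem norm_eval_le {σ : Type} [Fintype σ] {Λ : Type u} [NormedField Λ] [IsUltrametricDist Λ]
    (O : Subring Λ) (hO : ∀ x ∈ O, ‖x‖ ≤ 1) (Q : MvPolynomial σ O) (f : σ → Λ) (B : ℝ)
    (hB : 0 ≤ B) (h : ∀ d ∈ Q.support, ∏ i, ‖f i‖ ^ d i ≤ B) :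
    ‖MvPolynomial.eval₂ O.subtype f Q‖ ≤ B := by
  rw [MvPolynomial.eval₂_eq']
  refine IsUltrametricDist.norm_sum_le_of_forall_le_of_nonneg hB fun d hd => ?_
  rw [norm_mul, norm_prod]
  simp only [norm_pow]
  calc ‖O.subtype (MvPolynomial.coeff d Q)‖ * ∏ i, ‖f i‖ ^ d i ≤ 1 * ∏ i, ‖f i‖ ^ d i :=
        mul_le_mul_of_nonneg_right (hO _ (MvPolynomial.coeff d Q).2)
          (Finset.prod_nonneg fun i _ => pow_nonneg (norm_nonneg _) _)
    _ ≤ B := by rw [one_mul]; exact h d hd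

theorem eval_bd {σ : Type} {Λ : Type u} [CommRing Λ] (O : Subring Λ) (f : σ → Λ) (a b : ℕ)
    (x y : II a b → MvPolynomial σ O) :
    MvPolynomial.eval₂ O.subtype f (bd a b x y) =
      bd a b (fun l => MvPolynomial.eval₂ O.subtype f (x l))
        (fun l => MvPolynomial.eval₂ O.subtype f (y l)) := by
  rw [bd, bd, ← MvPolynomial.coe_eval₂Hom, RingHom.map_det]
  congr 1
  ext l c
  simp [Matrix.map_apply]

/-- the value of the classes at one level -/
theorem level {σ : Type} {O : Type u} [CommRing O] (hE : S_exp.{u}) {M : ℕ} (e : Fin M → σ)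
    {a b : ℕ} {A : Type u} (c₀ : ℕ → II a b → A) (c : ℕ → II a b → O)
    (hc : ∀ j l l', c₀ j l = c₀ j l' → c j l = c j l') (η : II a b → O) (j₀ : Fin M)
    (y : II a b → MvPolynomial σ O) :
    (∀ d ∈ (bd a b (rw' e c η) y).support, ∑ l, (phi 1 0 a b (dcl c₀ ((j₀ : ℕ) + 1) l) : ℝ) /
      (dcl c₀ ((j₀ : ℕ) + 1) l : ℝ) ≤ d (e j₀)) ∧
    (∀ d ∈ (bd a b y (rw' e c η)).support, ∑ l, (phi 0 1 a b (dcl c₀ ((j₀ : ℕ) + 1) l) : ℝ) /
      (dcl c₀ ((j₀ : ℕ) + 1) l : ℝ) ≤ d (e j₀)) := by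
  classical
  obtain ⟨C, _, cl, out, hout, hcard⟩ := classes c₀ ((j₀ : ℕ) + 1)
  obtain ⟨β, hβ⟩ := rw_split e c η j₀
  set α : C → MvPolynomial σ O := fun q =>
    ∑ i ∈ range ((j₀ : ℕ) + 1), MvPolynomial.C (c i (out q)) * pr O e i with hα
  have hrow : rw' e c η = fun l => α (cl l) + MvPolynomial.X (e j₀) * β l := by
    funext l
    rw [hβ l]
    congr 1
    refine Finset.sum_congr rfl fun i hi => ?_
    rw [hc i _ _ (hout l i (Finset.mem_range.1 hi))]
  have key : ∀ (Q : MvPolynomial σ O) (w₁ w₂ : ℕ), (w₁ = 1 ∧ w₂ = 0 ∨ w₁ = 0 ∧ w₂ = 1) →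
      Q ∈ Ideal.span {z : MvPolynomial σ O | ∃ m : ℕ, z = MvPolynomial.X (e j₀) ^ m ∧
        ∑ l, (phi w₁ w₂ a b (univ.filter fun l' => cl l' = cl l).card : ℝ) /
          ((univ.filter fun l' => cl l' = cl l).card : ℝ) ≤ (m : ℕ)} →
      ∀ d ∈ Q.support, ∑ l, (phi w₁ w₂ a b (dcl c₀ ((j₀ : ℕ) + 1) l) : ℝ) /
        (dcl c₀ ((j₀ : ℕ) + 1) l : ℝ) ≤ d (e j₀) := by
    intro Q w₁ w₂ _ hQ d hd
    have h1 : {z : MvPolynomial σ O | ∃ m : ℕ, z = MvPolynomial.X (e j₀) ^ m ∧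
        ∑ l, (phi w₁ w₂ a b (univ.filter fun l' => cl l' = cl l).card : ℝ) /
          ((univ.filter fun l' => cl l' = cl l).card : ℝ) ≤ (m : ℕ)} =
        (fun s => MvPolynomial.monomial s (1 : O)) '' {s : σ →₀ ℕ | ∃ m : ℕ,
          s = Finsupp.single (e j₀) m ∧
        ∑ l, (phi w₁ w₂ a b (univ.filter fun l' => cl l' = cl l).card : ℝ) /
          ((univ.filter fun l' => cl l' = cl l).card : ℝ) ≤ (m : ℕ)} := by
      ext z
      constructor
      · rintro ⟨m, hz, hm⟩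
        exact ⟨_, ⟨m, rfl, hm⟩, by rw [hz, MvPolynomial.X_pow_eq_monomial]⟩
      · rintro ⟨s, ⟨m, rfl, hm⟩, rfl⟩
        exact ⟨m, by simp only [MvPolynomial.X_pow_eq_monomial], hm⟩
    rw [h1, MvPolynomial.mem_ideal_span_monomial_image] at hQ
    obtain ⟨s, ⟨m, rfl, hm⟩, hs⟩ := hQ d hd
    have h2 := hs (e j₀)
    rw [Finsupp.single_eq_same] at h2
    have h3 : ∑ l, (phi w₁ w₂ a b (dcl c₀ ((j₀ : ℕ) + 1) l) : ℝ) /
        (dcl c₀ ((j₀ : ℕ) + 1) l : ℝ) ≤ (m : ℝ) := by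
      refine le_trans (le_of_eq ?_) hm
      refine Finset.sum_congr rfl fun l _ => ?_
      rw [hcard l]
    exact h3.trans (by exact_mod_cast h2)
  constructor
  · refine key _ 1 0 (Or.inl ⟨rfl, rfl⟩) ?_
    rw [hrow]
    have h1 := hE (MvPolynomial σ O) a b C cl α (fun _ => 0) β y (MvPolynomial.X (e j₀)) 1
    simp only [one_mul, zero_add] at h1
    refine Ideal.span_mono ?_ h1
    rintro z ⟨m, n, hz, hw⟩
    refine ⟨m, ?_, ?_⟩
    · rw [hz, one_pow, mul_one]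
    · have := hw 1 0
      simpa using this
  · refine key _ 0 1 (Or.inr ⟨rfl, rfl⟩) ?_
    rw [hrow]
    have h1 := hE (MvPolynomial σ O) a b C cl (fun _ => 0) α y β 1 (MvPolynomial.X (e j₀))
    simp only [one_mul, zero_add] at h1
    refine Ideal.span_mono ?_ h1
    rintro z ⟨m, n, hz, hw⟩
    refine ⟨n, ?_, ?_⟩
    · rw [hz, one_pow, one_mul]
    · have := hw 0 1
      simpa using this

/-- the value of the classes at one level, both coordinates -/
theorem level2 {σ : Type} {O : Type u} [CommRing O] (hE : S_exp.{u}) {M : ℕ} (e e' : Fin M → σ)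
    (hne : ∀ j, e j ≠ e' j)
    {a b : ℕ} {A : Type u} (c₀ : ℕ → II a b → A) (c : ℕ → II a b → O)
    (hc : ∀ j l l', c₀ j l = c₀ j l' → c j l = c j l') (η η' : II a b → O) (j₀ : Fin M)
    (w₁ w₂ : ℕ) :
    ∀ d ∈ (bd a b (rw' e c η) (rw' e' c η')).support,
      ∑ l, (phi w₁ w₂ a b (dcl c₀ ((j₀ : ℕ) + 1) l) : ℝ) /
      (dcl c₀ ((j₀ : ℕ) + 1) l : ℝ) ≤ w₁ * d (e j₀) + w₂ * d (e' j₀) := by
  classical
  obtain ⟨C, _, cl, out, hout, hcard⟩ := classes c₀ ((j₀ : ℕ) + 1)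
  obtain ⟨β, hβ⟩ := rw_split e c η j₀
  obtain ⟨β', hβ'⟩ := rw_split e' c η' j₀
  have hrow : rw' e c η = fun l => (fun q => ∑ i ∈ range ((j₀ : ℕ) + 1),
      MvPolynomial.C (c i (out q)) * pr O e i) (cl l) + MvPolynomial.X (e j₀) * β l := by
    funext l
    rw [hβ l]
    congr 1
    refine Finset.sum_congr rfl fun i hi => ?_
    rw [hc i _ _ (hout l i (Finset.mem_range.1 hi))]
  have hrow' : rw' e' c η' = fun l => (fun q => ∑ i ∈ range ((j₀ : ℕ) + 1),
      MvPolynomial.C (c i (out q)) * pr O e' i) (cl l) + MvPolynomial.X (e' j₀) * β' l := by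
    funext l
    rw [hβ' l]
    congr 1
    refine Finset.sum_congr rfl fun i hi => ?_
    rw [hc i _ _ (hout l i (Finset.mem_range.1 hi))]
  intro d hd
  have h1 := hE (MvPolynomial σ O) a b C cl (fun q => ∑ i ∈ range ((j₀ : ℕ) + 1),
      MvPolynomial.C (c i (out q)) * pr O e i) (fun q => ∑ i ∈ range ((j₀ : ℕ) + 1),
      MvPolynomial.C (c i (out q)) * pr O e' i) β β' (MvPolynomial.X (e j₀))
      (MvPolynomial.X (e' j₀))
  rw [← hrow, ← hrow'] at h1
  have h2 : {z : MvPolynomial σ O | ∃ m n : ℕ, z = MvPolynomial.X (e j₀) ^ m *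
      MvPolynomial.X (e' j₀) ^ n ∧ ∀ w₁ w₂ : ℕ,
        ∑ l, (phi w₁ w₂ a b (univ.filter fun l' => cl l' = cl l).card : ℝ) /
          ((univ.filter fun l' => cl l' = cl l).card : ℝ) ≤ (w₁ * m + w₂ * n : ℕ)} =
      (fun s => MvPolynomial.monomial s (1 : O)) '' {s : σ →₀ ℕ | ∃ m n : ℕ,
          s = Finsupp.single (e j₀) m + Finsupp.single (e' j₀) n ∧ ∀ w₁ w₂ : ℕ,
        ∑ l, (phi w₁ w₂ a b (univ.filter fun l' => cl l' = cl l).card : ℝ) /
          ((univ.filter fun l' => cl l' = cl l).card : ℝ) ≤ (w₁ * m + w₂ * n : ℕ)} := by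
    ext z
    constructor
    · rintro ⟨m, n, hz, hm⟩
      exact ⟨_, ⟨m, n, rfl, hm⟩, by rw [hz, MvPolynomial.X_pow_eq_monomial,
        MvPolynomial.X_pow_eq_monomial, MvPolynomial.monomial_mul, one_mul]⟩
    · rintro ⟨s, ⟨m, n, rfl, hm⟩, rfl⟩
      exact ⟨m, n, by simp only [MvPolynomial.X_pow_eq_monomial, MvPolynomial.monomial_mul,
        one_mul], hm⟩
  rw [h2, MvPolynomial.mem_ideal_span_monomial_image] at h1
  obtain ⟨s, ⟨m, n, rfl, hm⟩, hs⟩ := h1 d hd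
  have h3 := hs (e j₀)
  have h4 := hs (e' j₀)
  rw [Finsupp.add_apply, Finsupp.single_eq_same, Finsupp.single_eq_of_ne (hne j₀)] at h3
  rw [Finsupp.add_apply, Finsupp.single_eq_same, Finsupp.single_eq_of_ne (hne j₀).symm] at h4
  have h5 : ∑ l, (phi w₁ w₂ a b (dcl c₀ ((j₀ : ℕ) + 1) l) : ℝ) /
        (dcl c₀ ((j₀ : ℕ) + 1) l : ℝ) ≤ (w₁ * m + w₂ * n : ℕ) := by
    refine le_trans (le_of_eq ?_) (hm w₁ w₂)
    refine Finset.sum_congr rfl fun l _ => ?_
    rw [hcard l]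
  refine h5.trans ?_
  push_cast
  have h6 : (m : ℝ) ≤ d (e j₀) := by exact_mod_cast (by omega : m ≤ d (e j₀))
  have h7 : (n : ℝ) ≤ d (e' j₀) := by exact_mod_cast (by omega : n ≤ d (e' j₀))
  have h8 : (0 : ℝ) ≤ w₁ := Nat.cast_nonneg _
  have h9 : (0 : ℝ) ≤ w₂ := Nat.cast_nonneg _
  nlinarith [mul_le_mul_of_nonneg_left h6 h8, mul_le_mul_of_nonneg_left h7 h9]

/-- the unit ball -/
def ball (Λ : Type u) [NormedField Λ] [IsUltrametricDist Λ] : Subring Λ where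
  carrier := {x | ‖x‖ ≤ 1}
  mul_mem' := by
    intro x y hx hy
    simp only [Set.mem_ofPred_eq] at hx hy ⊢
    rw [norm_mul]
    exact mul_le_one₀ hx (norm_nonneg _) hy
  one_mem' := by simp
  add_mem' := by
    intro x y hx hy
    exact (IsUltrametricDist.norm_add_le_max x y).trans (max_le hx hy)
  zero_mem' := by simp
  neg_mem' := by
    intro x hx
    simpa using hx

theorem sum_Icc_fin (M : ℕ) (f : ℕ → ℝ) : ∑ i ∈ Icc 1 M, f i = ∑ j : Fin M, f ((j : ℕ) + 1) := by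
  rw [← Finset.sum_range fun j => f (j + 1), Finset.range_eq_Ico, Finset.sum_Ico_add' f 0 M 1]
  rfl

theorem clw (hE : S_exp.{u}) : S_clw.{u} := by
  intro Λ _ _ a b M w₁ w₂ θ hθ ϖ ϖ' hϖ hϖ' c η η' hc hη hη'
  set O := ball Λ with hO
  set e : Fin M → Fin M ⊕ Fin M := Sum.inl with he
  set e' : Fin M → Fin M ⊕ Fin M := Sum.inr with he'
  set f : Fin M ⊕ Fin M → Λ := Sum.elim (fun _ => ϖ) (fun _ => ϖ') with hf
  set cO : ℕ → II a b → O := fun i l => ⟨c i l, hc i l⟩ with hcO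
  set ηO : II a b → O := fun l => ⟨η l, hη l⟩ with hηO
  set ηO' : II a b → O := fun l => ⟨η' l, hη' l⟩ with hηO'
  have hev : bd a b (fun l => ∑ i ∈ range M, c i l * ϖ ^ i + ϖ ^ M * η l)
      (fun l => ∑ i ∈ range M, c i l * ϖ' ^ i + ϖ' ^ M * η' l) =
      MvPolynomial.eval₂ O.subtype f (bd a b (rw' e cO ηO) (rw' e' cO ηO')) := by
    rw [eval_bd]
    congr 1
    · funext l
      rw [eval_rw O e f ϖ (fun _ => rfl)]
    · funext l
      rw [eval_rw O e' f ϖ' (fun _ => rfl)]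
  rw [hev]
  refine norm_eval_le O (fun x hx => hx) _ _ _ (Real.exp_pos _).le fun d hd => ?_
  rw [Fintype.prod_sum_type]
  simp only [hf, Sum.elim_inl, Sum.elim_inr]
  have hV := fun j : Fin M => level2 hE e e' (fun j => by simp [he, he']) c cO
    (fun j l l' h => Subtype.ext h) ηO ηO' j w₁ w₂ d hd
  calc (∏ j : Fin M, ‖ϖ‖ ^ d (Sum.inl j)) * ∏ j : Fin M, ‖ϖ'‖ ^ d (Sum.inr j)
      ≤ (∏ j : Fin M, Real.exp (-(w₁ * θ)) ^ d (Sum.inl j)) *
        ∏ j : Fin M, Real.exp (-(w₂ * θ)) ^ d (Sum.inr j) := by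
        refine mul_le_mul (Finset.prod_le_prod (fun i _ => pow_nonneg (norm_nonneg _) _)
          (fun i _ => pow_le_pow_left₀ (norm_nonneg _) hϖ _))
          (Finset.prod_le_prod (fun i _ => pow_nonneg (norm_nonneg _) _)
          (fun i _ => pow_le_pow_left₀ (norm_nonneg _) hϖ' _))
          (Finset.prod_nonneg fun i _ => pow_nonneg (norm_nonneg _) _)
          (Finset.prod_nonneg fun i _ => pow_nonneg (Real.exp_pos _).le _)
    _ = ∏ j : Fin M, Real.exp (-(θ * (w₁ * d (Sum.inl j) + w₂ * d (Sum.inr j)))) := by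
        rw [← Finset.prod_mul_distrib]
        refine Finset.prod_congr rfl fun j _ => ?_
        rw [← Real.exp_nat_mul, ← Real.exp_nat_mul, ← Real.exp_add]
        congr 1
        ring
    _ ≤ ∏ j : Fin M, Real.exp (-(θ * ∑ l, (phi w₁ w₂ a b (dcl c ((j : ℕ) + 1) l) : ℝ) /
          (dcl c ((j : ℕ) + 1) l : ℝ))) := by
        refine Finset.prod_le_prod (fun i _ => (Real.exp_pos _).le) fun j _ => ?_
        rw [Real.exp_le_exp, neg_le_neg_iff]
        exact mul_le_mul_of_nonneg_left (hV j) hθ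
    _ = _ := by
        rw [← Real.exp_sum, sum_Icc_fin M (fun i => ∑ l, (phi w₁ w₂ a b (dcl c i l) : ℝ) /
          (dcl c i l : ℝ)), Finset.sum_neg_distrib, Finset.mul_sum]

theorem cli (hE : S_exp.{u}) : S_cli.{u} := by
  intro Λ _ _ a b M M' θ θ' hθ hθ' ϖ ϖ' hϖ hϖ' c c' η η' hc hc' hη hη'
  set O := ball Λ with hO
  set e : Fin M → Fin M ⊕ Fin M' := Sum.inl with he
  set e' : Fin M' → Fin M ⊕ Fin M' := Sum.inr with he'
  set f : Fin M ⊕ Fin M' → Λ := Sum.elim (fun _ => ϖ) (fun _ => ϖ') with hf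
  set cO : ℕ → II a b → O := fun i l => ⟨c i l, hc i l⟩ with hcO
  set cO' : ℕ → II a b → O := fun i l => ⟨c' i l, hc' i l⟩ with hcO'
  set ηO : II a b → O := fun l => ⟨η l, hη l⟩ with hηO
  set ηO' : II a b → O := fun l => ⟨η' l, hη' l⟩ with hηO'
  have hev : bd a b (fun l => ∑ i ∈ range M, c i l * ϖ ^ i + ϖ ^ M * η l)
      (fun l => ∑ i ∈ range M', c' i l * ϖ' ^ i + ϖ' ^ M' * η' l) =
      MvPolynomial.eval₂ O.subtype f (bd a b (rw' e cO ηO) (rw' e' cO' ηO')) := by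
    rw [eval_bd]
    congr 1
    · funext l
      rw [eval_rw O e f ϖ (fun _ => rfl)]
    · funext l
      rw [eval_rw O e' f ϖ' (fun _ => rfl)]
  rw [hev]
  refine norm_eval_le O (fun x hx => hx) _ _ _ (Real.exp_pos _).le fun d hd => ?_
  rw [Fintype.prod_sum_type]
  simp only [hf, Sum.elim_inl, Sum.elim_inr]
  have hV := fun j : Fin M => (level hE e c cO (fun j l l' h => Subtype.ext h) ηO j
    (rw' e' cO' ηO')).1 d hd
  have hV' := fun j : Fin M' => (level hE e' c' cO' (fun j l l' h => Subtype.ext h) ηO' j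
    (rw' e cO ηO)).2 d hd
  have gen : ∀ (N : ℕ) (τ : ℝ) (_ : 0 ≤ τ) (ρ : Λ) (_ : ‖ρ‖ ≤ Real.exp (-τ)) (g : Fin N → ℕ)
      (V : ℕ → ℝ) (_ : ∀ j : Fin N, V ((j : ℕ) + 1) ≤ g j),
      ∏ j : Fin N, ‖ρ‖ ^ g j ≤ Real.exp (-(τ * ∑ i ∈ Icc 1 N, V i)) := by
    intro N τ hτ ρ hρ g V hgV
    calc ∏ j : Fin N, ‖ρ‖ ^ g j ≤ ∏ j : Fin N, Real.exp (-(τ * V ((j : ℕ) + 1))) := by
          refine Finset.prod_le_prod (fun i _ => pow_nonneg (norm_nonneg _) _) fun j _ => ?_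
          refine (pow_le_pow_left₀ (norm_nonneg _) hρ _).trans ?_
          rw [← Real.exp_nat_mul, Real.exp_le_exp]
          have := mul_le_mul_of_nonneg_left (hgV j) hτ
          linarith
      _ = _ := by
          rw [← Real.exp_sum, sum_Icc_fin N V, Finset.sum_neg_distrib, Finset.mul_sum]
  have g1 := gen M θ hθ ϖ hϖ (fun j => d (Sum.inl j)) (fun i => ∑ l, (phi 1 0 a b (dcl c i l) : ℝ) /
          (dcl c i l : ℝ)) hV
  have g2 := gen M' θ' hθ' ϖ' hϖ' (fun j => d (Sum.inr j)) (fun i =>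
    ∑ l, (phi 0 1 a b (dcl c' i l) : ℝ) / (dcl c' i l : ℝ)) hV'
  refine (mul_le_mul g1 g2 (Finset.prod_nonneg fun i _ => pow_nonneg (norm_nonneg _) _)
    (Real.exp_pos _).le).trans (le_of_eq ?_)
  rw [← Real.exp_add]
  congr 1
  ring

end Pool.Agent.Q144.SU
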