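import Pool.Agent.Q41.SU.Stm1
import Pool.Agent.W277.UB.Gen

/-!
# Project SU: job F8 (the derivation)
-/

set_option autoImplicit false

namespace Pool.Agent.Q144.SU

open Finset Polynomial Pool.Agent.Q41.SU

universe u

section

variable {k E : Type u} [Field k] [Field E] [Algebra k E]

/-- a derivation killing `t` kills the image of `k(t)` -/
theorem der_rat (δ : Derivation k E E) (t : E) (ht : δ t = 0) (x : E) (r q : k[X])
    (hq : aeval t q ≠ 0) (hx : x = aeval t r / aeval t q) : δ x = 0 := by
  have h1 : ∀ p : k[X], δ (aeval t p) = 0 := by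
    intro p
    rw [Derivation.map_aeval, ht, smul_zero]
  have h2 : aeval t q * x = aeval t r := by
    rw [hx, mul_div_cancel₀ _ hq]
  have h3 := congrArg δ h2
  rw [δ.leibniz, h1, h1, smul_zero, add_zero, smul_eq_mul] at h3
  exact (mul_eq_zero.1 h3).resolve_left hq

/-- a derivation killing `t` is zero -/
theorem der_zero [CharZero k] [Algebra (RatFunc k) E] [IsScalarTower k (RatFunc k) E]
    [FiniteDimensional (RatFunc k) E] (δ : Derivation k E E)
    (h : ∀ r : RatFunc k, δ (algebraMap (RatFunc k) E r) = 0) (x : E) : δ x = 0 := by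
  have : CharZero (RatFunc k) := charZero_of_injective_algebraMap
    (algebraMap k (RatFunc k)).injective
  let δ' : Derivation (RatFunc k) E E := Derivation.mk'
    { toFun := δ
      map_add' := map_add δ
      map_smul' := fun r y => by
        rw [Algebra.smul_def, δ.leibniz, h, smul_zero, add_zero, smul_eq_mul, RingHom.id_apply,
          Algebra.smul_def] }
    (fun a b => δ.leibniz a b)
  have hint : IsIntegral (RatFunc k) x := Algebra.IsIntegral.isIntegral x
  have h1 : δ' (aeval x (minpoly (RatFunc k) x)) = 0 := by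
    rw [minpoly.aeval, map_zero]
  rw [Derivation.map_aeval, smul_eq_mul] at h1
  have h2 : aeval x (derivative (minpoly (RatFunc k) x)) ≠ 0 :=
    (minpoly.irreducible hint).separable.aeval_derivative_ne_zero (minpoly.aeval _ _)
  exact (mul_eq_zero.1 h1).resolve_left h2

theorem alg_const [IsAlgClosed k] (x : E) (hx : IsAlgebraic k x) :
    ∃ c : k, x = algebraMap k E c := by
  have h1 := minpoly.irreducible hx.isIntegral
  have h2 := IsAlgClosed.degree_eq_one_of_irreducible k h1
  obtain ⟨c, hc⟩ := minpoly.mem_range_of_degree_eq_one k x h2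
  exact ⟨c, hc.symm⟩

end

theorem der : S_der.{u} := by
  intro k E _ _ _ _ _ t G _ hG
  have hinj : Function.Injective (aeval t : k[X] →ₐ[k] E) :=
    transcendental_iff_injective.1 hG.trans
  have hcz : CharZero E := charZero_of_injective_algebraMap (algebraMap k E).injective
  let φ : RatFunc k →ₐ[k] E := RatFunc.liftAlgHom (aeval t)
    (nonZeroDivisors_le_comap_nonZeroDivisors_of_injective _ hinj)
  have hφ : ∀ p : k[X], φ (algebraMap k[X] (RatFunc k) p) = aeval t p := by
    intro p
    have h1 : ∀ (h : Submonoid.map (aeval t : k[X] →ₐ[k] E) (nonZeroDivisors k[X]) ≤ nonZeroDivisors E), True := fun _ => trivial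
    simp [φ, RatFunc.liftAlgHom_apply]
  let _ : Algebra (RatFunc k) E := φ.toRingHom.toAlgebra
  have hal : ∀ r, algebraMap (RatFunc k) E r = φ r := fun r => rfl
  have : IsScalarTower k (RatFunc k) E := IsScalarTower.of_algebraMap_eq fun c => by
    rw [hal, AlgHom.commutes]
  have hrat : ∀ r : RatFunc k, ∃ p q : k[X], q ≠ 0 ∧ φ r = aeval t p / aeval t q := by
    intro r
    refine ⟨r.num, r.denom, r.denom_ne_zero, ?_⟩
    conv_lhs => rw [← RatFunc.num_div_denom r]
    rw [map_div₀, hφ, hφ]
  have : FiniteDimensional (RatFunc k) E := by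
    have hfd : FiniteDimensional (FixedPoints.subfield G E) E := inferInstance
    obtain ⟨s, hs⟩ := hfd.fg_top
    refine ⟨⟨s, ?_⟩⟩
    rw [eq_top_iff]
    rintro x -
    have hx : x ∈ Submodule.span (FixedPoints.subfield G E) (s : Set E) := by
      rw [hs]
      exact Submodule.mem_top
    induction hx using Submodule.span_induction with
    | mem y hy => exact Submodule.subset_span hy
    | zero => exact Submodule.zero_mem _
    | add y z _ _ hy hz => exact Submodule.add_mem _ hy hz
    | smul a y _ hy =>
      obtain ⟨r, q, hq, hrq⟩ := hG.rat (a : E) (fun g hg => a.2 ⟨g, hg⟩)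
      have h1 : (a : E) = φ (algebraMap k[X] (RatFunc k) r / algebraMap k[X] (RatFunc k) q) := by
        rw [map_div₀, hφ, hφ, hrq]
      have h2 : a • y = (algebraMap k[X] (RatFunc k) r / algebraMap k[X] (RatFunc k) q) • y := by
        rw [Algebra.smul_def (A := E) (algebraMap k[X] (RatFunc k) r / algebraMap k[X] (RatFunc k) q) y,
          hal, ← h1]
        rfl
      rw [h2]
      exact Submodule.smul_mem _ _ hy
  obtain ⟨D, hD1, hD2⟩ := Pool.Agent.W277.UB.exists_deriv k E
  have hDt : D t = 1 := by
    have h1 : algebraMap (RatFunc k) E (algebraMap k[X] (RatFunc k) X) = t := by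
      rw [hal, hφ, aeval_X]
    have h2 := hD1 (algebraMap k[X] (RatFunc k) X)
    rw [h1, Pool.Agent.W277.UB.ratD_alg] at h2
    rw [h2]
    simp
  refine ⟨D, hDt, ?_, ?_⟩
  · intro g hg x
    let D' : Derivation k E E := Derivation.mk'
      ((g.symm : E ≃ₐ[k] E).toLinearMap ∘ₗ D.toLinearMap ∘ₗ (g : E ≃ₐ[k] E).toLinearMap)
      (fun a b => by
        simp [D.leibniz])
    have hD' : ∀ y, D' y = g.symm (D (g y)) := fun y => rfl
    have h1 : ∀ y, (D - D') y = 0 := by
      refine der_zero (D - D') fun r => ?_
      obtain ⟨p, q, hq, hpq⟩ := hrat r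
      refine der_rat (D - D') t ?_ _ p q ?_ (by rw [hal, hpq])
      · rw [Derivation.sub_apply, hD', hG.fix g hg, hDt, map_one, sub_self]
      · intro h
        exact hq (hinj (by rw [h, map_zero]))
    have h2 := h1 x
    rw [Derivation.sub_apply, hD', sub_eq_zero] at h2
    rw [h2]
    exact (g.apply_symm_apply _).symm
  · intro x hx
    exact alg_const x (hD2 x hx)

end Pool.Agent.Q144.SU
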