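import Pool.Agent.Q41.SU.Stm3

/-!
# Project SU: job T2 (descent of invariant tensors)
-/

set_option autoImplicit false

namespace Pool.Agent.Q144.SU

open Finset Polynomial TensorProduct Pool.Agent.Q41.SU

universe u

section

variable {k E : Type u} [Field k] [Field E] [Algebra k E]

/-- left slice -/
noncomputable def sl (f : E →ₗ[k] k) : E ⊗[k] E →ₗ[k] E :=
  (TensorProduct.rid k E).toLinearMap ∘ₗ TensorProduct.map LinearMap.id f

/-- right slice -/
noncomputable def sr (f : E →ₗ[k] k) : E ⊗[k] E →ₗ[k] E :=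
  (TensorProduct.lid k E).toLinearMap ∘ₗ TensorProduct.map f LinearMap.id

theorem sl_tmul (f : E →ₗ[k] k) (x y : E) : sl f (x ⊗ₜ[k] y) = f y • x := by
  simp [sl]

theorem sr_tmul (f : E →ₗ[k] k) (x y : E) : sr f (x ⊗ₜ[k] y) = f x • y := by
  simp [sr]

theorem sep_left (z : E ⊗[k] E) (h : ∀ f : E →ₗ[k] k, sl f z = 0) : z = 0 := by
  classical
  let b := Module.Basis.ofVectorSpace k E
  have h1 : ∀ (w : E ⊗[k] E) i, TensorProduct.equivFinsuppOfBasisRight b w i =
      sl (b.coord i) w := by
    intro w i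
    induction w using TensorProduct.induction_on with
    | zero => simp
    | tmul x y => rw [sl_tmul]; simp
    | add x y hx hy => rw [map_add, map_add, Finsupp.add_apply, hx, hy]
  have h2 : TensorProduct.equivFinsuppOfBasisRight b z = 0 := by
    ext i
    rw [h1, h]
    rfl
  exact (map_eq_zero_iff _ (LinearEquiv.injective _)).1 h2

theorem sep_right (z : E ⊗[k] E) (h : ∀ f : E →ₗ[k] k, sr f z = 0) : z = 0 := by
  classical
  let b := Module.Basis.ofVectorSpace k E
  have h1 : ∀ (w : E ⊗[k] E) i, TensorProduct.equivFinsuppOfBasisLeft b w i =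
      sr (b.coord i) w := by
    intro w i
    induction w using TensorProduct.induction_on with
    | zero => simp
    | tmul x y => rw [sr_tmul]; simp
    | add x y hx hy => rw [map_add, map_add, Finsupp.add_apply, hx, hy]
  have h2 : TensorProduct.equivFinsuppOfBasisLeft b z = 0 := by
    ext i
    rw [h1, h]
    rfl
  exact (map_eq_zero_iff _ (LinearEquiv.injective _)).1 h2

theorem sl_map (f : E →ₗ[k] k) (g : E →ₗ[k] E) (z : E ⊗[k] E) :
    sl f (TensorProduct.map g LinearMap.id z) = g (sl f z) := by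
  induction z using TensorProduct.induction_on with
  | zero => simp
  | tmul x y => rw [TensorProduct.map_tmul, sl_tmul, sl_tmul, map_smul]; rfl
  | add x y hx hy => rw [map_add, map_add, map_add, map_add, hx, hy]

theorem sr_map (f : E →ₗ[k] k) (g : E →ₗ[k] E) (z : E ⊗[k] E) :
    sr f (TensorProduct.map LinearMap.id g z) = g (sr f z) := by
  induction z using TensorProduct.induction_on with
  | zero => simp
  | tmul x y => rw [TensorProduct.map_tmul, sr_tmul, sr_tmul, map_smul]; rfl
  | add x y hx hy => rw [map_add, map_add, map_add, map_add, hx, hy]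

theorem exists_proj (A : Submodule k E) : ∃ π : E →ₗ[k] E, (∀ x, π x ∈ A) ∧ ∀ x ∈ A, π x = x := by
  obtain ⟨f, hf⟩ := A.subtype.exists_leftInverse_of_injective (Submodule.ker_subtype A)
  refine ⟨A.subtype ∘ₗ f, fun x => (f x).2, fun x hx => ?_⟩
  have := congrArg (fun h => A.subtype (h ⟨x, hx⟩)) hf
  simpa using this

theorem span_of_slices (A B : Submodule k E) (z : E ⊗[k] E) (hA : ∀ f, sl f z ∈ A)
    (hB : ∀ f, sr f z ∈ B) :
    z ∈ Submodule.span k {y : E ⊗[k] E | ∃ v ∈ A, ∃ w ∈ B, y = v ⊗ₜ[k] w} := by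
  obtain ⟨π, hπ1, hπ2⟩ := exists_proj A
  obtain ⟨ρ, hρ1, hρ2⟩ := exists_proj B
  have h1 : TensorProduct.map π LinearMap.id z = z := by
    rw [← sub_eq_zero]
    refine sep_left _ fun f => ?_
    rw [map_sub, sl_map, hπ2 _ (hA f), sub_self]
  have h2 : TensorProduct.map LinearMap.id ρ z = z := by
    rw [← sub_eq_zero]
    refine sep_right _ fun f => ?_
    rw [map_sub, sr_map, hρ2 _ (hB f), sub_self]
  have h3 : ∀ w : E ⊗[k] E, TensorProduct.map π LinearMap.id (TensorProduct.map LinearMap.id ρ w) ∈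
      Submodule.span k {y : E ⊗[k] E | ∃ v ∈ A, ∃ w ∈ B, y = v ⊗ₜ[k] w} := by
    intro w
    induction w using TensorProduct.induction_on with
    | zero => simp
    | tmul x y =>
      rw [TensorProduct.map_tmul, TensorProduct.map_tmul]
      exact Submodule.subset_span ⟨_, hπ1 x, _, hρ1 y, rfl⟩
    | add x y hx hy =>
      rw [map_add, map_add]
      exact Submodule.add_mem _ hx hy
  have h4 := h3 z
  rw [h2, h1] at h4
  exact h4

end

theorem desc : S_desc.{u} := by
  intro k E _ _ _ G V W hV hW z hz hinv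
  let A : Submodule k E :=
    { carrier := {v | v ∈ V ∧ ∀ g ∈ G, g v = v}
      add_mem' := fun {a b} ha hb => ⟨V.add_mem ha.1 hb.1, fun g hg => by
        rw [map_add, ha.2 g hg, hb.2 g hg]⟩
      zero_mem' := ⟨V.zero_mem, fun g _ => map_zero g⟩
      smul_mem' := fun c x hx => ⟨V.smul_mem c hx.1, fun g hg => by
        rw [map_smul, hx.2 g hg]⟩ }
  let B : Submodule k E :=
    { carrier := {v | v ∈ W ∧ ∀ g ∈ G, g v = v}
      add_mem' := fun {a b} ha hb => ⟨W.add_mem ha.1 hb.1, fun g hg => by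
        rw [map_add, ha.2 g hg, hb.2 g hg]⟩
      zero_mem' := ⟨W.zero_mem, fun g _ => map_zero g⟩
      smul_mem' := fun c x hx => ⟨W.smul_mem c hx.1, fun g hg => by
        rw [map_smul, hx.2 g hg]⟩ }
  have hVs : ∀ f, sl f z ∈ V := by
    intro f
    refine Submodule.span_le.2 ?_ (show z ∈ Submodule.span k _ from hz) |> fun h => (show z ∈ V.comap (sl f) from h)
    rintro _ ⟨v, hv, w, hw, rfl⟩
    show sl f (v ⊗ₜ[k] w) ∈ V
    rw [sl_tmul]
    exact V.smul_mem _ hv
  have hWs : ∀ f, sr f z ∈ W := by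
    intro f
    refine Submodule.span_le.2 ?_ (show z ∈ Submodule.span k _ from hz) |> fun h => (show z ∈ W.comap (sr f) from h)
    rintro _ ⟨v, hv, w, hw, rfl⟩
    show sr f (v ⊗ₜ[k] w) ∈ W
    rw [sr_tmul]
    exact W.smul_mem _ hw
  have hl : ∀ g ∈ G, TensorProduct.map (g : E ≃ₐ[k] E).toLinearMap LinearMap.id z = z := by
    intro g hg
    have h1 := hinv g hg 1 G.one_mem
    have h2 : ∀ w : E ⊗[k] E, TensorProduct.map (g : E ≃ₐ[k] E).toLinearMap LinearMap.id w =
        Algebra.TensorProduct.map (g : E →ₐ[k] E) ((1 : E ≃ₐ[k] E) : E →ₐ[k] E) w := by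
      intro w
      induction w using TensorProduct.induction_on with
      | zero => simp
      | tmul x y => simp
      | add x y hx hy => rw [map_add, map_add, hx, hy]
    rw [h2]
    exact h1
  have hr : ∀ g ∈ G, TensorProduct.map LinearMap.id (g : E ≃ₐ[k] E).toLinearMap z = z := by
    intro g hg
    have h1 := hinv 1 G.one_mem g hg
    have h2 : ∀ w : E ⊗[k] E, TensorProduct.map LinearMap.id (g : E ≃ₐ[k] E).toLinearMap w =
        Algebra.TensorProduct.map ((1 : E ≃ₐ[k] E) : E →ₐ[k] E) (g : E →ₐ[k] E) w := by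
      intro w
      induction w using TensorProduct.induction_on with
      | zero => simp
      | tmul x y => simp
      | add x y hx hy => rw [map_add, map_add, hx, hy]
    rw [h2]
    exact h1
  have hA : ∀ f, sl f z ∈ A := by
    intro f
    refine ⟨hVs f, fun g hg => ?_⟩
    have := sl_map f (g : E ≃ₐ[k] E).toLinearMap z
    rw [hl g hg] at this
    exact this.symm
  have hB : ∀ f, sr f z ∈ B := by
    intro f
    refine ⟨hWs f, fun g hg => ?_⟩
    have := sr_map f (g : E ≃ₐ[k] E).toLinearMap z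
    rw [hr g hg] at this
    exact this.symm
  refine Submodule.span_mono ?_ (span_of_slices A B z hA hB)
  rintro y ⟨v, hv, w, hw, rfl⟩
  exact ⟨v, hv.1, hv.2, w, hw.1, hw.2, rfl⟩

end Pool.Agent.Q144.SU
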