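import Pool.Agent.Q144.SU.Gen

/-!
# Project SU: job N2 (iterates)
-/

set_option autoImplicit false

namespace Pool.Agent.Q144.SU

open Finset Polynomial Pool.Agent.Q41.SU

universe u

theorem it : S_it.{u} := by
  intro E _ d p q hd hp hq hpq
  have hA : ∀ n, IsCoprime (itr d p q n).1 (itr d p q n).2 ∧ (itr d p q n).2 ≠ 0 ∧
      max (itr d p q n).1.natDegree (itr d p q n).2.natDegree = d ^ n := by
    intro n
    have hq0 : q ≠ 0 := by
      rintro rfl
      rw [natDegree_zero] at hq
      omega
    exact itr_props hd hpq (by rw [hq]; exact max_eq_right hp) hq0 n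
  intro n
  refine ⟨(hA n).1, (hA n).2.1, (hA n).2.2, ?_, ?_⟩
  · intro m
    let alg : E[X] →ₐ[E] RatFunc E := IsScalarTower.toAlgHom E E[X] (RatFunc E)
    have halg : ∀ f, alg f = algebraMap E[X] (RatFunc E) f := fun f => rfl
    have hne : ∀ f : E[X], f ≠ 0 → alg f ≠ 0 := by
      intro f hf
      rw [halg]
      exact RatFunc.algebraMap_ne_zero hf
    set r := rf (itr d p q n).1 (itr d p q n).2 with hr
    have hr' : r = alg (itr d p q n).1 / alg (itr d p q n).2 := rfl
    have hrv : ∀ g : E[X], g ≠ 0 → aeval r g ≠ 0 := by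
      intro g hg h0
      have h1 := Pool.Agent.Q24.SU.hcm_ne (H := g.natDegree) le_rfl hg (hA n).1 (hA n).2.1
        (by rw [(hA n).2.2]; exact Nat.one_le_pow _ _ hd)
      have h2 := map_hcm alg (H := g.natDegree) (g := g) (P := (itr d p q n).1) le_rfl
        (hne _ (hA n).2.1)
      rw [← hr', h0, mul_zero] at h2
      exact hne _ h1 h2
    have hstep : ∀ j, rf (itr d p q (j + 1)).1 (itr d p q (j + 1)).2 =
        aeval (rf (itr d p q j).1 (itr d p q j).2) p /
          aeval (rf (itr d p q j).1 (itr d p q j).2) q := by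
      intro j
      have hj := hne _ (hA j).2.1
      have e1 := map_hcm alg (H := d) (g := p) (P := (itr d p q j).1) hp hj
      have e2 := map_hcm alg (H := d) (g := q) (P := (itr d p q j).1) hq.le hj
      show alg (hcm d p (itr d p q j).1 (itr d p q j).2) /
        alg (hcm d q (itr d p q j).1 (itr d p q j).2) = _
      rw [e1, e2, mul_div_mul_left _ _ (pow_ne_zero _ hj)]
      rfl
    have hstep' : ∀ j, aeval r (itr d p q (j + 1)).1 / aeval r (itr d p q (j + 1)).2 =
        aeval (aeval r (itr d p q j).1 / aeval r (itr d p q j).2) p /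
          aeval (aeval r (itr d p q j).1 / aeval r (itr d p q j).2) q := by
      intro j
      have hj := hrv _ (hA j).2.1
      have e1 := map_hcm (aeval r) (H := d) (g := p) (P := (itr d p q j).1) hp hj
      have e2 := map_hcm (aeval r) (H := d) (g := q) (P := (itr d p q j).1) hq.le hj
      show aeval r (hcm d p (itr d p q j).1 (itr d p q j).2) /
        aeval r (hcm d q (itr d p q j).1 (itr d p q j).2) = _
      rw [e1, e2, mul_div_mul_left _ _ (pow_ne_zero _ hj)]
    induction m with
    | zero =>
      show rf (itr d p q n).1 (itr d p q n).2 = aeval r X / aeval r 1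
      rw [aeval_X, map_one, div_one]
    | succ m ih =>
      rw [← Nat.add_assoc, hstep, hstep', ih]
  · intro P hP
    have hB : ∀ n, ∀ z ∈ P, (itr d p q n).2.eval z ≠ 0 ∧
        (itr d p q n).1.eval z / (itr d p q n).2.eval z =
          (fun y => p.eval y / q.eval y)^[n] z ∧ (fun y => p.eval y / q.eval y)^[n] z ∈ P := by
      intro n
      induction n with
      | zero =>
        intro z hz
        refine ⟨?_, ?_, hz⟩
        · show (1 : E[X]).eval z ≠ 0
          rw [eval_one]
          exact one_ne_zero
        · show (X : E[X]).eval z / (1 : E[X]).eval z = z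
          rw [eval_X, eval_one, div_one]
      | succ n ih =>
        intro z hz
        obtain ⟨h1, h2, h3⟩ := ih z hz
        have e1 := Pool.Agent.Q24.SU.hcm_eval (H := d) (g := p) (P := (itr d p q n).1) hp h1
        have e2 := Pool.Agent.Q24.SU.hcm_eval (H := d) (g := q) (P := (itr d p q n).1) hq.le h1
        rw [h2] at e1 e2
        have h4 := hP _ h3
        refine ⟨?_, ?_, ?_⟩
        · show (hcm d q (itr d p q n).1 (itr d p q n).2).eval z ≠ 0
          rw [e2]
          exact mul_ne_zero (pow_ne_zero _ h1) h4.1
        · show (hcm d p (itr d p q n).1 (itr d p q n).2).eval z /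
            (hcm d q (itr d p q n).1 (itr d p q n).2).eval z = _
          rw [e1, e2, mul_div_mul_left _ _ (pow_ne_zero _ h1), Function.iterate_succ_apply']
        · rw [Function.iterate_succ_apply']
          exact h4.2
    refine ⟨fun z hz => ⟨(hB n z hz).1, ?_⟩, fun z hz => (hB n z hz).2.1⟩
    rw [(hB n z hz).2.1]
    exact (hB n z hz).2.2

end Pool.Agent.Q144.SU
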