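import Pool.Agent.Q24.SU.Pb

/-!
# Project SU: forms and iterates with `max (deg p) (deg q) = d`
-/

set_option autoImplicit false

namespace Pool.Agent.Q144.SU

open Finset Polynomial Pool.Agent.Q41.SU

universe u

section

variable {E : Type u} [Field E]

theorem map_hcm {K : Type*} [Field K] [Algebra E K] (ψ : E[X] →ₐ[E] K) {H : ℕ} {g P Q : E[X]}
    (hg : g.natDegree ≤ H) (hQ : ψ Q ≠ 0) :
    ψ (hcm H g P Q) = ψ Q ^ H * aeval (ψ P / ψ Q) g := by
  unfold hcm
  rw [map_sum, aeval_eq_sum_range' (Nat.lt_succ_of_le hg), mul_sum]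
  refine sum_congr rfl fun i hi => ?_
  have hi' : i ≤ H := Nat.lt_succ_iff.1 (mem_range.1 hi)
  have hC : ∀ c : E, ψ (C c) = algebraMap E K c := fun c => by
    rw [← Polynomial.algebraMap_eq, AlgHom.commutes]
  rw [map_mul, map_mul, hC, map_pow, map_pow, div_pow, Algebra.smul_def]
  obtain ⟨j, rfl⟩ : ∃ j, H = j + i := ⟨H - i, by omega⟩
  rw [Nat.add_sub_cancel, pow_add]
  field_simp

theorem map_hcm0 {K : Type*} [Field K] [Algebra E K] (ψ : E[X] →ₐ[E] K) {H : ℕ} {g P Q : E[X]}
    (hQ : ψ Q = 0) :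
    ψ (hcm H g P Q) = algebraMap E K (g.coeff H) * ψ P ^ H := by
  unfold hcm
  have hC : ∀ c : E, ψ (C c) = algebraMap E K c := fun c => by
    rw [← Polynomial.algebraMap_eq, AlgHom.commutes]
  rw [map_sum, Finset.sum_eq_single H]
  · rw [map_mul, map_mul, hC, map_pow, Nat.sub_self, pow_zero, map_one, mul_one]
  · intro i hi hne
    have hi' : i ≤ H := Nat.lt_succ_iff.1 (mem_range.1 hi)
    rw [map_mul, map_pow ψ Q, hQ, zero_pow (by omega), mul_zero]
  · intro h
    exact absurd (mem_range.2 (Nat.lt_succ_self H)) h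

theorem coprime_hcm {d : ℕ} {p q : E[X]} (hp : p.natDegree ≤ d) (hq : q.natDegree ≤ d)
    (hd : p.coeff d ≠ 0 ∨ q.coeff d ≠ 0) (hpq : IsCoprime p q) {u v : E[X]}
    (huv : IsCoprime u v) :
    IsCoprime (hcm d p u v) (hcm d q u v) := by
  rw [Polynomial.isCoprime_iff_aeval_ne_zero_of_isAlgClosed E (AlgebraicClosure E)] at hpq huv ⊢
  intro a
  by_cases hv : aeval a v = 0
  · have hu := (huv a).resolve_right (not_not_intro hv)
    rw [map_hcm0 (aeval a) hv, map_hcm0 (aeval a) hv]
    rcases hd with h | h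
    · left
      exact mul_ne_zero (by rwa [Ne, map_eq_zero]) (pow_ne_zero _ hu)
    · right
      exact mul_ne_zero (by rwa [Ne, map_eq_zero]) (pow_ne_zero _ hu)
  · rw [map_hcm (aeval a) hp hv, map_hcm (aeval a) hq hv]
    rcases hpq (aeval a u / aeval a v) with h | h
    · left
      exact mul_ne_zero (pow_ne_zero _ hv) h
    · right
      exact mul_ne_zero (pow_ne_zero _ hv) h

theorem coeff_hcm {H m : ℕ} {g P Q : E[X]} (hP : P.natDegree ≤ m) (hQ : Q.natDegree ≤ m) :
    (hcm H g P Q).coeff (H * m) =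
      ∑ i ∈ range (H + 1), g.coeff i * P.coeff m ^ i * Q.coeff m ^ (H - i) := by
  unfold hcm
  rw [finsetSum_coeff]
  refine sum_congr rfl fun i hi => ?_
  have hi' : i ≤ H := Nat.lt_succ_iff.1 (mem_range.1 hi)
  have h1 : H * m = i * m + (H - i) * m := by
    rw [← Nat.add_mul]
    congr 1
    omega
  rw [h1, coeff_mul_add_eq_of_natDegree_le ((natDegree_C_mul_le _ _).trans
    ((natDegree_pow_le).trans (Nat.mul_le_mul_left _ hP)))
    ((natDegree_pow_le).trans (Nat.mul_le_mul_left _ hQ)), coeff_C_mul,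
    coeff_pow_of_natDegree_le hP, coeff_pow_of_natDegree_le hQ]

theorem coeff_of_max {p q : E[X]} {d : ℕ} (hd : 1 ≤ d) (h : max p.natDegree q.natDegree = d) :
    p.coeff d ≠ 0 ∨ q.coeff d ≠ 0 := by
  have key : ∀ f : E[X], f.natDegree = d → f.coeff d ≠ 0 := by
    intro f hf h0
    have : f.leadingCoeff = 0 := by
      rw [leadingCoeff, hf, h0]
    rw [leadingCoeff_eq_zero] at this
    rw [this, natDegree_zero] at hf
    omega
  rcases max_choice p.natDegree q.natDegree with h1 | h1
  · left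
    exact key p (by rw [← h1, h])
  · right
    exact key q (by rw [← h1, h])

theorem deg_hcm {d m : ℕ} {p q : E[X]} (hp : p.natDegree ≤ d) (hq : q.natDegree ≤ d)
    (hd : p.coeff d ≠ 0 ∨ q.coeff d ≠ 0) (hpq : IsCoprime p q) {u v : E[X]} (hm : 1 ≤ m)
    (huv : max u.natDegree v.natDegree = m) :
    max (hcm d p u v).natDegree (hcm d q u v).natDegree = d * m := by
  have hu : u.natDegree ≤ m := huv ▸ le_max_left _ _
  have hv : v.natDegree ≤ m := huv ▸ le_max_right _ _
  refine le_antisymm (max_le (Pool.Agent.Q24.SU.hcm_deg hu hv) (Pool.Agent.Q24.SU.hcm_deg hu hv)) ?_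
  rw [le_max_iff]
  by_cases hvm : v.coeff m = 0
  · have hum : u.coeff m ≠ 0 := (coeff_of_max hm huv).resolve_right (not_not_intro hvm)
    have h0 : ∀ g : E[X], ∑ i ∈ range (d + 1), g.coeff i * u.coeff m ^ i * v.coeff m ^ (d - i) =
        g.coeff d * u.coeff m ^ d := by
      intro g
      rw [hvm, Finset.sum_eq_single d]
      · rw [Nat.sub_self, pow_zero, mul_one]
      · intro i hi hne
        have hi' : i ≤ d := Nat.lt_succ_iff.1 (mem_range.1 hi)
        rw [zero_pow (by omega), mul_zero]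
      · intro h
        exact absurd (mem_range.2 (Nat.lt_succ_self d)) h
    rcases hd with h | h
    · left
      refine le_natDegree_of_ne_zero ?_
      rw [coeff_hcm hu hv, h0]
      exact mul_ne_zero h (pow_ne_zero _ hum)
    · right
      refine le_natDegree_of_ne_zero ?_
      rw [coeff_hcm hu hv, h0]
      exact mul_ne_zero h (pow_ne_zero _ hum)
  · have key : ∀ g : E[X], g.natDegree ≤ d →
        ∑ i ∈ range (d + 1), g.coeff i * u.coeff m ^ i * v.coeff m ^ (d - i) =
          v.coeff m ^ d * g.eval (u.coeff m / v.coeff m) := by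
      intro g hg
      rw [eval_eq_sum_range' (Nat.lt_succ_of_le hg), mul_sum]
      refine sum_congr rfl fun i hi => ?_
      have hi' : i ≤ d := Nat.lt_succ_iff.1 (mem_range.1 hi)
      rw [div_pow]
      obtain ⟨j, rfl⟩ : ∃ j, d = j + i := ⟨d - i, by omega⟩
      rw [Nat.add_sub_cancel, pow_add]
      field_simp
    obtain ⟨a, b, hab⟩ := hpq
    by_cases h1 : p.eval (u.coeff m / v.coeff m) = 0
    · right
      refine le_natDegree_of_ne_zero ?_
      rw [coeff_hcm hu hv, key q hq]
      refine mul_ne_zero (pow_ne_zero _ hvm) ?_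
      intro h2
      have h3 := congrArg (fun f : E[X] => f.eval (u.coeff m / v.coeff m)) hab
      simp [h1, h2] at h3
    · left
      refine le_natDegree_of_ne_zero ?_
      rw [coeff_hcm hu hv, key p hp]
      exact mul_ne_zero (pow_ne_zero _ hvm) h1

/-- coprimality and degrees of the iterates -/
theorem itr_props {d : ℕ} {p q : E[X]} (hd : 1 ≤ d) (hpq : IsCoprime p q)
    (hmax : max p.natDegree q.natDegree = d) (hq0 : q ≠ 0) (n : ℕ) :
    IsCoprime (itr d p q n).1 (itr d p q n).2 ∧ (itr d p q n).2 ≠ 0 ∧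
      max (itr d p q n).1.natDegree (itr d p q n).2.natDegree = d ^ n := by
  have hp : p.natDegree ≤ d := hmax ▸ le_max_left _ _
  have hq : q.natDegree ≤ d := hmax ▸ le_max_right _ _
  have hc := coeff_of_max hd hmax
  induction n with
  | zero =>
    refine ⟨?_, ?_, ?_⟩
    · exact isCoprime_one_right
    · exact one_ne_zero
    · show max (X : E[X]).natDegree (1 : E[X]).natDegree = d ^ 0
      rw [natDegree_X, natDegree_one, pow_zero]
      rfl
  | succ n ih =>
    obtain ⟨h1, h2, h3⟩ := ih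
    have hpos : 1 ≤ d ^ n := Nat.one_le_pow _ _ hd
    refine ⟨coprime_hcm hp hq hc hpq h1, ?_, ?_⟩
    · exact Pool.Agent.Q24.SU.hcm_ne hq hq0 h1 h2 (by rw [h3]; exact hpos)
    · rw [pow_succ, mul_comm]
      exact deg_hcm hp hq hc hpq hpos h3

end

end Pool.Agent.Q144.SU
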