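import Pool.Agent.Q41.SU.Stm7

/-!
# Strong uniform boundedness in characteristic zero (SU-B1)
-/

set_option autoImplicit false

namespace Pool.Agent.Q144.SU.B

open Pool.Agent.Q41.SU Pool.Agent.W277.UB Pool.Agent.W277.UG Pool.Agent.W277.UH
open Pool.Agent.Y706.BI (IsoAlg)
open Finset Polynomial

universe u v w

/-- moving infinity out of a stable set -/
theorem stable_reduce {k : Type v} {K : Type u} [Field k] [Field K] [Infinite K] [Algebra k K]
    (d : ℕ) (hd : 2 ≤ d)
    (p q : Polynomial K) (hmax : max p.natDegree q.natDegree = d) (hco : IsCoprime p q)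
    (P : Finset (Option K)) (hP : ∀ z ∈ P, ratP1 p q d z ∈ P) :
    ∃ (p' q' : Polynomial K) (P' : Finset K), p'.natDegree ≤ d ∧ q'.natDegree = d ∧
      IsCoprime p' q' ∧ (∀ z ∈ P', q'.eval z ≠ 0 ∧ p'.eval z / q'.eval z ∈ P') ∧
      P'.card = P.card ∧ (ConjConst k p' q' d → ConjConst k p q d) := by
  classical
  have hp : p.natDegree ≤ d := by rw [← hmax]; exact le_max_left _ _
  have hq : q.natDegree ≤ d := by rw [← hmax]; exact le_max_right _ _
  have hlead : p.coeff d ≠ 0 ∨ q.coeff d ≠ 0 := by
    rcases le_total p.natDegree q.natDegree with h | h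
    · right
      rw [max_eq_right h] at hmax
      rw [← hmax]
      apply leadingCoeff_ne_zero.mpr
      rintro rfl
      rw [natDegree_zero] at hmax
      omega
    · left
      rw [max_eq_left h] at hmax
      rw [← hmax]
      apply leadingCoeff_ne_zero.mpr
      rintro rfl
      rw [natDegree_zero] at hmax
      omega
  have hX : p - X * q ≠ 0 := by
    intro h0
    have h1 : p = X * q := sub_eq_zero.mp h0
    have h2 : IsUnit q := by
      obtain ⟨a, b, hab⟩ := hco
      rw [h1] at hab
      apply IsUnit.of_mul_eq_one (a * X + b)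
      rw [← hab]
      ring
    have h3 := natDegree_eq_zero_of_isUnit h2
    have h4 : p.natDegree ≤ 1 := by
      rw [h1]
      refine natDegree_mul_le.trans ?_
      rw [h3, add_zero]
      exact natDegree_X_le
    rw [h3] at hmax
    omega
  obtain ⟨c, hc⟩ := Infinite.exists_notMem_finset
    ((P.image fun z => z.getD 0) ∪ (p - X * q).roots.toFinset)
  rw [Finset.mem_union, not_or] at hc
  have hcP : some c ∉ P := by
    intro h
    apply hc.1
    exact Finset.mem_image.mpr ⟨some c, h, rfl⟩
  have hcr : p.eval c - c * q.eval c ≠ 0 := by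
    intro h
    apply hc.2
    rw [Multiset.mem_toFinset, mem_roots hX, IsRoot.def, eval_sub, eval_mul, eval_X]
    exact h
  have hpq : (p - C c * q).natDegree ≤ d :=
    (natDegree_sub_le _ _).trans (max_le hp ((natDegree_C_mul_le _ _).trans hq))
  have hq'd : (pc d (p - C c * q) c).natDegree = d := by
    apply le_antisymm (pc_degree _ _ _)
    apply le_natDegree_of_ne_zero
    rw [pc_coeff d _ hpq, eval_sub, eval_mul, eval_C]
    exact hcr
  have hco' := pc_coprime d (by omega) p q hp hq hco hlead c
  have hinj : Set.InjOn (phc c) (P : Set (Option K)) := by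
    intro z hz z' hz' h
    rcases z with _ | x
    · rcases z' with _ | x'
      · rfl
      · exfalso
        have hx' : x' ≠ c := by
          rintro rfl
          exact hcP hz'
        have h1 : (0 : K) = (x' - c)⁻¹ := h
        exact inv_ne_zero (sub_ne_zero.mpr hx') h1.symm
    · rcases z' with _ | x'
      · exfalso
        have hx : x ≠ c := by
          rintro rfl
          exact hcP hz
        have h1 : (x - c)⁻¹ = (0 : K) := h
        exact inv_ne_zero (sub_ne_zero.mpr hx) h1
      · have h1 : (x - c)⁻¹ = (x' - c)⁻¹ := h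
        have h2 := inv_injective h1
        have h3 : x = x' := sub_left_injective h2
        rw [h3]
  have hst : ∀ y ∈ P.image (phc c), (pc d (p - C c * q) c).eval y ≠ 0 ∧
      (pc d q c).eval y / (pc d (p - C c * q) c).eval y ∈ P.image (phc c) := by
    intro y hy
    obtain ⟨z, hz, rfl⟩ := Finset.mem_image.mp hy
    have hFz := hP z hz
    rcases z with _ | x
    · have hval : phc c (none : Option K) = 0 := rfl
      rw [hval, pc_eval_zero, pc_eval_zero, coeff_sub, coeff_C_mul]
      by_cases hqd : q.coeff d = 0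
      · have hpd : p.coeff d ≠ 0 := hlead.resolve_right (fun h => h hqd)
        rw [hqd, mul_zero, sub_zero, zero_div]
        rw [ratP1_none0 p q d hqd] at hFz
        exact ⟨hpd, Finset.mem_image.mpr ⟨none, hFz, rfl⟩⟩
      · rw [ratP1_none p q d hqd] at hFz
        have h1 : p.coeff d / q.coeff d ≠ c := by
          intro h
          rw [h] at hFz
          exact hcP hFz
        have h2 : p.coeff d - c * q.coeff d ≠ 0 := by
          intro h
          apply h1
          rw [div_eq_iff hqd]
          exact sub_eq_zero.mp h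
        refine ⟨h2, Finset.mem_image.mpr ⟨_, hFz, ?_⟩⟩
        show (p.coeff d / q.coeff d - c)⁻¹ = _
        rw [div_sub' hqd, inv_div, mul_comm (q.coeff d) c]
    · have hxc : x ≠ c := by
        rintro rfl
        exact hcP hz
      have h0 : x - c ≠ 0 := sub_ne_zero.mpr hxc
      have hval : phc c (some x) = (x - c)⁻¹ := rfl
      have e1 := pc_eval_inv d q hq c x hxc
      have e2 := pc_eval_inv d (p - C c * q) hpq c x hxc
      rw [eval_sub, eval_mul, eval_C] at e2
      rw [hval]
      have hpow : (x - c) ^ d ≠ 0 := pow_ne_zero _ h0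
      have hratio : (pc d q c).eval (x - c)⁻¹ / (pc d (p - C c * q) c).eval (x - c)⁻¹ =
          q.eval x / (p.eval x - c * q.eval x) := by
        have h9 : (pc d q c).eval (x - c)⁻¹ / (pc d (p - C c * q) c).eval (x - c)⁻¹ =
            ((x - c) ^ d * (pc d q c).eval (x - c)⁻¹) /
              ((x - c) ^ d * (pc d (p - C c * q) c).eval (x - c)⁻¹) :=
          (mul_div_mul_left _ _ hpow).symm
        rw [h9, e1, e2]
      rw [hratio]
      have hne' : p.eval x - c * q.eval x ≠ 0 →
          (pc d (p - C c * q) c).eval (x - c)⁻¹ ≠ 0 := by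
        intro h h'
        rw [h', mul_zero] at e2
        exact h e2.symm
      by_cases hqx : q.eval x = 0
      · have hpx : p.eval x ≠ 0 := by
          intro hpx
          obtain ⟨a, b, hab⟩ := hco
          have := congrArg (eval x) hab
          rw [eval_add, eval_mul, eval_mul, hpx, hqx, mul_zero, mul_zero, add_zero,
            eval_one] at this
          exact zero_ne_one this
        rw [ratP1_some0 p q d x hqx] at hFz
        refine ⟨hne' (by rw [hqx, mul_zero, sub_zero]; exact hpx),
          Finset.mem_image.mpr ⟨none, hFz, ?_⟩⟩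
        rw [hqx, zero_div]
        rfl
      · rw [ratP1_some p q d x hqx] at hFz
        have h1 : p.eval x / q.eval x ≠ c := by
          intro h
          rw [h] at hFz
          exact hcP hFz
        have h2 : p.eval x - c * q.eval x ≠ 0 := by
          intro h
          apply h1
          rw [div_eq_iff hqx]
          exact sub_eq_zero.mp h
        refine ⟨hne' h2, Finset.mem_image.mpr ⟨_, hFz, ?_⟩⟩
        show (p.eval x / q.eval x - c)⁻¹ = _
        rw [div_sub' hqx, inv_div, mul_comm (q.eval x) c]
  exact ⟨_, _, P.image (phc c), pc_degree _ _ _, hq'd, hco', hst,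
    Finset.card_image_of_injOn hinj, fun h => conj_transfer d p q hp hq c h⟩

/-- preperiodic points lie in finite stable sets -/
theorem prePer_of_stable {A : Type u} (F : A → A) (B : ℕ)
    (h : ∀ P : Finset A, (∀ z ∈ P, F z ∈ P) → P.card ≤ B) :
    {z : A | (Set.range fun m : ℕ => F^[m] z).Finite}.encard ≤ (B : ℕ∞) := by
  classical
  by_contra hcon
  push Not at hcon
  obtain ⟨T, hTs, hT⟩ := Set.exists_subset_encard_eq (Order.add_one_le_of_lt hcon)
  have hTf : T.Finite := by
    apply Set.finite_of_encard_eq_coe (k := B + 1)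
    rw [hT]
    norm_cast
  have h1 : (⋃ z ∈ T, Set.range fun m : ℕ => F^[m] z).Finite :=
    hTf.biUnion fun z hz => hTs hz
  have h2 := h h1.toFinset (by
    intro z hz
    rw [Set.Finite.mem_toFinset, Set.mem_iUnion₂] at hz ⊢
    obtain ⟨w, hw, m, hm⟩ := hz
    refine ⟨w, hw, m + 1, ?_⟩
    simp only at hm ⊢
    rw [Function.iterate_succ_apply', hm])
  have h3 : hTf.toFinset ⊆ h1.toFinset := by
    intro z hz
    rw [Set.Finite.mem_toFinset] at hz ⊢
    rw [Set.mem_iUnion₂]
    exact ⟨z, hz, 0, rfl⟩
  have h4 := Finset.card_le_card h3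
  have h5 : (hTf.toFinset.card : ℕ∞) = B + 1 := by
    rw [← hT, hTf.encard_eq_coe_toFinset_card]
  have h6 : hTf.toFinset.card = B + 1 := by exact_mod_cast h5
  omega

/-- **strong uniform boundedness** -/
theorem t_main (hcore : S_core.{u}) (hcrc : S_crc.{u}) (hext : S_ext.{u, v}) :
    S_main.{u, v} := by
  classical
  have h1 : ∀ n d : ℕ, ∃ B : ℕ, 2 ≤ d → ∀ (k E : Type u) [Field k] [CharZero k] [IsAlgClosed k]
      [Field E] [Algebra k E] (t : E) (G : Subgroup (E ≃ₐ[k] E)) [Fintype G], IsGal k t G →
      Fintype.card G ≤ n.factorial → ∀ p q : E[X], p.natDegree ≤ d → q.natDegree = d →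
      IsCoprime p q → ∀ P : Finset E, Stab p q P → ¬ ConjConst k p q d → P.card ≤ B := by
    intro n d
    by_cases hd : 2 ≤ d
    · obtain ⟨B, hB⟩ := hcore d n.factorial hd
      exact ⟨B, fun _ => hB⟩
    · exact ⟨0, fun h => absurd h hd⟩
  choose N hN using h1
  refine ⟨fun n d => N n d + (3 * d + 4), ?_⟩
  intro k L _ _ _ _ t ht hfd n d hn hd p q hco hmax hiso
  have hczL : CharZero L := charZero_of_injective_algebraMap (algebraMap k L).injective
  have hinfL : Infinite L := inferInstance
  apply prePer_of_stable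
  intro P hP
  by_contra hcon
  push Not at hcon
  apply hiso
  obtain ⟨p', q', P', hp', hq', hco', hst', hcard', htr⟩ :=
    stable_reduce (k := algebraicClosure k L) d hd p q hmax hco P hP
  obtain ⟨k', E, _, _, _, _, _, j, t', G, _, hgal, hG, halg⟩ := hext k L t ht hfd n hn
  have hjinj : Function.Injective j := j.injective
  have hst2 : Stab (p'.map j) (q'.map j) (P'.image j) := by
    intro y hy
    obtain ⟨z, hz, rfl⟩ := Finset.mem_image.mp hy
    obtain ⟨e1, e2⟩ := hst' z hz
    rw [eval_map_apply, eval_map_apply]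
    refine ⟨(map_ne_zero j).mpr e1, ?_⟩
    rw [← map_div₀]
    exact Finset.mem_image_of_mem _ e2
  have hcoj : IsCoprime (p'.map j) (q'.map j) := hco'.map (Polynomial.mapRingHom j)
  have hcc : ConjConst k' (p'.map j) (q'.map j) d := by
    by_contra hno
    have h2 := hN n d hd k' E t' G hgal hG (p'.map j) (q'.map j)
      (natDegree_map_le.trans hp') (by rw [natDegree_map]; exact hq') hcoj (P'.image j) hst2 hno
    rw [Finset.card_image_of_injective _ hjinj] at h2
    omega
  have hcr := hcrc k' E d (p'.map j) (q'.map j) hd (natDegree_map_le.trans hp')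
    (natDegree_map_le.trans hq'.le) (by
      rw [natDegree_map, natDegree_map, hq']
      exact max_eq_right hp') hcoj hcc (P'.image j) hst2
  have hconj : ConjConst (algebraicClosure k L) p' q' d := by
    refine conj_of_cross p' q' d hp' hq' hd hco' P' hst' P' (Finset.Subset.refl _) ?_ (by
      rw [Finset.sdiff_self, Finset.card_empty]
      omega)
    intro x0 h0 x1 h1 x2 h2 x hx h01 h02 h12 hx2 hx0
    obtain ⟨c, hc⟩ := hcr (j x0) (Finset.mem_image_of_mem _ h0) (j x1)
      (Finset.mem_image_of_mem _ h1) (j x2) (Finset.mem_image_of_mem _ h2) (j x)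
      (Finset.mem_image_of_mem _ hx) (hjinj.ne h01) (hjinj.ne h02) (hjinj.ne h12)
      (hjinj.ne hx2) (hjinj.ne hx0)
    have h3 : IsAlgebraic k (((x - x0) * (x1 - x2)) / ((x - x2) * (x1 - x0))) := by
      apply halg
      refine ⟨c, ?_⟩
      rw [hc, map_div₀, map_mul, map_mul, map_sub, map_sub, map_sub, map_sub]
    exact ⟨⟨_, h3.isIntegral⟩, rfl⟩
  obtain ⟨a, b, c, e, hdet, u, w, hne, hu, hw, hid⟩ := htr hconj
  have hinj := (algebraMap (algebraicClosure k L) L).injective
  refine ⟨a, b, c, e, hdet, u.map (algebraMap _ L), w.map (algebraMap _ L), ?_,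
    natDegree_map_le.trans hu, natDegree_map_le.trans hw, fun n => ?_, fun n => ?_, ?_⟩
  · rcases hne with h | h
    · exact Or.inl ((Polynomial.map_ne_zero_iff hinj).mpr h)
    · exact Or.inr ((Polynomial.map_ne_zero_iff hinj).mpr h)
  · rw [coeff_map]
    exact mem_algebraicClosure_iff.mp (u.coeff n).2
  · rw [coeff_map]
    exact mem_algebraicClosure_iff.mp (w.coeff n).2
  · unfold Pool.Agent.W277.UH.hc hev at hid
    simpa using hid

end Pool.Agent.Q144.SU.B
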